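import Mathlib

/-!
Percolation with constant freezing on a finite graph: definitions, and comparison of the law of the
final configuration with functions which increase or decrease on average.
-/

set_option autoImplicit false

namespace Pool.Agent.H67PCF

/-- A state of the process: the set of frozen vertices and the set of open edges. -/
structure St (V : Type) where
  /-- the frozen vertices -/
  fr : Finset V
  /-- the open edges -/
  op : Finset (Sym2 V)

variable {V : Type} [Fintype V]

/-- The graph of the open edges. -/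
def St.graph (s : St V) : SimpleGraph V := SimpleGraph.fromEdgeSet (s.op : Set (Sym2 V))

open Classical in
/-- The cluster of the vertex `v`: the vertices joined to `v` by a path of open edges. -/
noncomputable def St.cl (s : St V) (v : V) : Finset V :=
  Finset.univ.filter fun w => s.graph.Reachable v w

open Classical in
/-- The warm clusters. -/
noncomputable def St.wc (s : St V) : Finset (Finset V) :=
  (Finset.univ.image s.cl).filter fun C => ∀ v ∈ C, v ∉ s.fr

open Classical in
/-- The closed edges of `G` whose end points are both warm. -/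
noncomputable def St.act (s : St V) (G : SimpleGraph V) : Finset (Sym2 V) :=
  Finset.univ.filter fun e => e ∈ G.edgeSet ∧ e ∉ s.op ∧ ∀ v ∈ e, v ∉ s.fr

open Classical in
/-- The state after the opening of the edge `e`. -/
noncomputable def St.opn (s : St V) (e : Sym2 V) : St V := ⟨s.fr, insert e s.op⟩

open Classical in
/-- The state after the freezing of the vertices in `C`. -/
noncomputable def St.frz (s : St V) (C : Finset V) : St V := ⟨s.fr ∪ C, s.op⟩

open Classical in
/-- The probability that after `n` jumps, or at the absorption if it comes earlier, the set of open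
edges belongs to `A`, for the process with the freezing rate `α` started from `s`. The next transition
is chosen with the probability proportional to its rate: `1` for the opening of each edge in
`s.act G`, and `α` for the freezing of each warm cluster. -/
noncomputable def prob (G : SimpleGraph V) (α : ℝ) (A : Set (Finset (Sym2 V))) : ℕ → St V → ℝ
  | 0, s => if s.op ∈ A then 1 else 0
  | n + 1, s =>
    if s.act G = ∅ ∧ s.wc = ∅ then (if s.op ∈ A then 1 else 0)
    else (∑ e ∈ s.act G, prob G α A n (s.opn e) + α * ∑ C ∈ s.wc, prob G α A n (s.frz C)) /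
      ((s.act G).card + α * s.wc.card)

/-- The probability that the final configuration belongs to `A`, started with all vertices warm and all
edges closed. Each jump freezes a vertex or opens an edge, so that the process is absorbed after at
most `Fintype.card V + Fintype.card (Sym2 V)` jumps. -/
noncomputable def μ (G : SimpleGraph V) (α : ℝ) (A : Set (Finset (Sym2 V))) : ℝ :=
  open Classical in prob G α A (Fintype.card V + Fintype.card (Sym2 V)) ⟨∅, ∅⟩

/-- Increasing events. -/
def Increasing (A : Set (Finset (Sym2 V))) : Prop := ∀ ω ω', ω ⊆ ω' → ω ∈ A → ω' ∈ A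

/-! ### Clusters -/

theorem mem_cl (s : St V) (v w : V) : w ∈ s.cl v ↔ s.graph.Reachable v w := by
  simp [St.cl]

theorem self_mem_cl (s : St V) (v : V) : v ∈ s.cl v := (mem_cl s v v).2 (SimpleGraph.Reachable.refl v)

theorem cl_eq_iff (s : St V) (v w : V) : s.cl v = s.cl w ↔ s.graph.Reachable v w := by
  constructor
  · intro h
    rw [← mem_cl, h]
    exact self_mem_cl s w
  · intro h
    ext t
    rw [mem_cl, mem_cl]
    exact ⟨fun h' => h.symm.trans h', fun h' => h.trans h'⟩

theorem adj_iff (s : St V) (v w : V) : s.graph.Adj v w ↔ s(v, w) ∈ s.op ∧ v ≠ w := by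
  simp [St.graph]

/-- A property which is the same at both ends of every open edge is constant on clusters. -/
theorem reach_iff {s : St V} (P : V → Prop) (h : ∀ v w, s(v, w) ∈ s.op → P v → P w) {v w : V}
    (hr : s.graph.Reachable v w) : P v → P w := by
  obtain ⟨p⟩ := hr
  induction p with
  | nil => exact id
  | cons hadj _ ih => exact fun hP => ih (h _ _ ((adj_iff s _ _).1 hadj).1 hP)

/-- The invariant. -/
structure Inv (G : SimpleGraph V) (s : St V) : Prop where
  sub : ∀ e ∈ s.op, e ∈ G.edgeSet
  con : ∀ v w, s(v, w) ∈ s.op → v ∈ s.fr → w ∈ s.fr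

theorem Inv.reach {G : SimpleGraph V} {s : St V} (h : Inv G s) {v w : V}
    (hr : s.graph.Reachable v w) (hv : v ∈ s.fr) : w ∈ s.fr :=
  reach_iff (fun v => v ∈ s.fr) h.con hr hv

theorem mem_wc {G : SimpleGraph V} {s : St V} (h : Inv G s) (C : Finset V) :
    C ∈ s.wc ↔ ∃ v, v ∉ s.fr ∧ C = s.cl v := by
  classical
  simp only [St.wc, Finset.mem_filter, Finset.mem_image, Finset.mem_univ, true_and]
  constructor
  · rintro ⟨⟨v, rfl⟩, hC⟩
    exact ⟨v, hC v (self_mem_cl s v), rfl⟩
  · rintro ⟨v, hv, rfl⟩
    refine ⟨⟨v, rfl⟩, fun w hw hwf => hv ?_⟩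
    exact h.reach ((mem_cl s v w).1 hw).symm hwf

theorem cl_mem_wc {G : SimpleGraph V} {s : St V} (h : Inv G s) {v : V} (hv : v ∉ s.fr) :
    s.cl v ∈ s.wc := (mem_wc h _).2 ⟨v, hv, rfl⟩

theorem wc_warm {s : St V} {C : Finset V} (hC : C ∈ s.wc) : ∀ v ∈ C, v ∉ s.fr := by
  classical
  simp only [St.wc, Finset.mem_filter] at hC
  exact hC.2

theorem wc_nonempty {s : St V} {C : Finset V} (hC : C ∈ s.wc) : C.Nonempty := by
  classical
  simp only [St.wc, Finset.mem_filter, Finset.mem_image, Finset.mem_univ, true_and] at hC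
  obtain ⟨⟨v, rfl⟩, -⟩ := hC
  exact ⟨v, self_mem_cl s v⟩

/-- A warm cluster containing `v` is the cluster of `v`. -/
theorem wc_eq {s : St V} {C : Finset V} (hC : C ∈ s.wc) {v : V} (hv : v ∈ C) : C = s.cl v := by
  classical
  simp only [St.wc, Finset.mem_filter, Finset.mem_image, Finset.mem_univ, true_and] at hC
  obtain ⟨⟨w, rfl⟩, -⟩ := hC
  exact (cl_eq_iff s w v).2 ((mem_cl s w v).1 hv)

theorem mem_act {G : SimpleGraph V} {s : St V} {e : Sym2 V} :
    e ∈ s.act G ↔ e ∈ G.edgeSet ∧ e ∉ s.op ∧ ∀ v ∈ e, v ∉ s.fr := by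
  simp [St.act]

theorem mem_opn {s : St V} {e e' : Sym2 V} : e' ∈ (s.opn e).op ↔ e' = e ∨ e' ∈ s.op := by
  classical
  simp [St.opn]

theorem opn_fr (s : St V) (e : Sym2 V) : (s.opn e).fr = s.fr := rfl

theorem frz_op (s : St V) (C : Finset V) : (s.frz C).op = s.op := rfl

theorem mem_frz {s : St V} {C : Finset V} {v : V} : v ∈ (s.frz C).fr ↔ v ∈ s.fr ∨ v ∈ C := by
  classical
  simp [St.frz]

theorem Inv.opn {G : SimpleGraph V} {s : St V} (h : Inv G s) {e : Sym2 V} (he : e ∈ s.act G) :
    Inv G (s.opn e) := by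
  rw [mem_act] at he
  constructor
  · intro e' he'
    rcases mem_opn.1 he' with rfl | h'
    · exact he.1
    · exact h.sub e' h'
  · intro v w hvw hv
    rw [opn_fr] at hv ⊢
    rcases mem_opn.1 hvw with h' | h'
    · exfalso
      refine he.2.2 v ?_ hv
      rw [← h']
      exact Sym2.mem_mk_left v w
    · exact h.con v w h' hv

theorem Inv.frz {G : SimpleGraph V} {s : St V} (h : Inv G s) {C : Finset V} (hC : C ∈ s.wc) :
    Inv G (s.frz C) := by
  constructor
  · exact h.sub
  · intro v w hvw hv
    rw [frz_op] at hvw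
    rcases mem_frz.1 hv with h' | h'
    · exact mem_frz.2 (Or.inl (h.con v w hvw h'))
    · refine mem_frz.2 (Or.inr ?_)
      have h1 := wc_eq hC h'
      rw [h1, mem_cl]
      by_cases hvw' : v = w
      · rw [hvw']
      · exact ((adj_iff s v w).2 ⟨hvw, hvw'⟩).reachable

theorem inv_init (G : SimpleGraph V) : Inv G (⟨∅, ∅⟩ : St V) :=
  ⟨fun e he => absurd he (Finset.notMem_empty e), fun v w h => absurd h (Finset.notMem_empty _)⟩

/-! ### Comparison -/

section
open Classical

/-- The number of jumps which are still possible. -/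
noncomputable def rem (s : St V) : ℕ :=
  (Fintype.card V - s.fr.card) + (Fintype.card (Sym2 V) - s.op.card)

theorem rem_opn {G : SimpleGraph V} {s : St V} {e : Sym2 V} (he : e ∈ s.act G) :
    rem (s.opn e) + 1 ≤ rem s := by
  rw [mem_act] at he
  have h1 : (s.opn e).op.card = s.op.card + 1 := Finset.card_insert_of_notMem he.2.1
  have h2 : (s.opn e).op.card ≤ Fintype.card (Sym2 V) := Finset.card_le_univ _
  have h3 : (s.opn e).fr = s.fr := rfl
  unfold rem
  rw [h3]
  omega

theorem rem_frz {s : St V} {C : Finset V} (hC : C ∈ s.wc) :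
    rem (s.frz C) + 1 ≤ rem s := by
  obtain ⟨v, hv⟩ := wc_nonempty hC
  have hd : Disjoint s.fr C := by
    rw [Finset.disjoint_left]
    exact fun w hw hwC => wc_warm hC w hwC hw
  have h1 : (s.frz C).fr.card = s.fr.card + C.card := by
    have h : (s.frz C).fr = s.fr ∪ C := by
      ext w
      rw [mem_frz, Finset.mem_union]
    rw [h, Finset.card_union_of_disjoint hd]
  have h2 : (s.frz C).fr.card ≤ Fintype.card V := Finset.card_le_univ _
  have h3 : (s.frz C).op = s.op := rfl
  have h4 : 0 < C.card := Finset.card_pos.2 ⟨v, hv⟩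
  unfold rem
  rw [h3]
  omega

theorem absorbed {G : SimpleGraph V} {s : St V} (h : rem s = 0) : s.act G = ∅ ∧ s.wc = ∅ := by
  constructor
  · rw [Finset.eq_empty_iff_forall_notMem]
    intro e he
    have := rem_opn he
    omega
  · rw [Finset.eq_empty_iff_forall_notMem]
    intro C hC
    have := rem_frz hC
    omega

theorem rate_pos {G : SimpleGraph V} {s : St V} {α : ℝ} (hα : 0 < α)
    (h : ¬ (s.act G = ∅ ∧ s.wc = ∅)) : 0 < ((s.act G).card : ℝ) + α * s.wc.card := by
  by_cases h1 : s.act G = ∅
  · have h2 : s.wc ≠ ∅ := fun h2 => h ⟨h1, h2⟩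
    have h3 : 0 < s.wc.card := Finset.card_pos.2 (Finset.nonempty_iff_ne_empty.2 h2)
    have h4 : (0 : ℝ) < s.wc.card := by exact_mod_cast h3
    positivity
  · have h3 : 0 < (s.act G).card := Finset.card_pos.2 (Finset.nonempty_iff_ne_empty.2 h1)
    have h4 : (0 : ℝ) < (s.act G).card := by exact_mod_cast h3
    positivity

theorem le_prob (G : SimpleGraph V) {α : ℝ} (hα : 0 < α) (A : Set (Finset (Sym2 V)))
    (g : St V → ℝ)
    (h0 : ∀ s, Inv G s → s.act G = ∅ → s.wc = ∅ → g s ≤ if s.op ∈ A then 1 else 0)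
    (h1 : ∀ s, Inv G s → 0 ≤ ∑ e ∈ s.act G, (g (s.opn e) - g s) +
      α * ∑ C ∈ s.wc, (g (s.frz C) - g s)) :
    ∀ n s, Inv G s → rem s ≤ n → g s ≤ prob G α A n s := by
  intro n
  induction n with
  | zero =>
    intro s hs hn
    obtain ⟨h2, h3⟩ := absorbed (G := G) (Nat.le_zero.1 hn)
    exact h0 s hs h2 h3
  | succ n ih =>
    intro s hs hn
    rw [prob]
    by_cases hab : s.act G = ∅ ∧ s.wc = ∅
    · rw [if_pos hab]
      exact h0 s hs hab.1 hab.2
    · rw [if_neg hab, le_div_iff₀ (rate_pos hα hab)]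
      have h2 : ∑ e ∈ s.act G, g (s.opn e) ≤ ∑ e ∈ s.act G, prob G α A n (s.opn e) :=
        Finset.sum_le_sum fun e he => ih _ (hs.opn he) (by have := rem_opn he; omega)
      have h3 : ∑ C ∈ s.wc, g (s.frz C) ≤ ∑ C ∈ s.wc, prob G α A n (s.frz C) :=
        Finset.sum_le_sum fun C hC => ih _ (hs.frz hC) (by have := rem_frz hC; omega)
      have h4 := h1 s hs
      rw [Finset.sum_sub_distrib, Finset.sum_sub_distrib, Finset.sum_const, Finset.sum_const,
        nsmul_eq_mul, nsmul_eq_mul] at h4
      have h5 := mul_le_mul_of_nonneg_left h3 hα.le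
      nlinarith

theorem prob_le (G : SimpleGraph V) {α : ℝ} (hα : 0 < α) (A : Set (Finset (Sym2 V)))
    (g : St V → ℝ)
    (h0 : ∀ s, Inv G s → s.act G = ∅ → s.wc = ∅ → (if s.op ∈ A then 1 else 0) ≤ g s)
    (h1 : ∀ s, Inv G s → ∑ e ∈ s.act G, (g (s.opn e) - g s) +
      α * ∑ C ∈ s.wc, (g (s.frz C) - g s) ≤ 0) :
    ∀ n s, Inv G s → rem s ≤ n → prob G α A n s ≤ g s := by
  intro n
  induction n with
  | zero =>
    intro s hs hn
    obtain ⟨h2, h3⟩ := absorbed (G := G) (Nat.le_zero.1 hn)
    exact h0 s hs h2 h3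
  | succ n ih =>
    intro s hs hn
    rw [prob]
    by_cases hab : s.act G = ∅ ∧ s.wc = ∅
    · rw [if_pos hab]
      exact h0 s hs hab.1 hab.2
    · rw [if_neg hab, div_le_iff₀ (rate_pos hα hab)]
      have h2 : ∑ e ∈ s.act G, prob G α A n (s.opn e) ≤ ∑ e ∈ s.act G, g (s.opn e) :=
        Finset.sum_le_sum fun e he => ih _ (hs.opn he) (by have := rem_opn he; omega)
      have h3 : ∑ C ∈ s.wc, prob G α A n (s.frz C) ≤ ∑ C ∈ s.wc, g (s.frz C) :=
        Finset.sum_le_sum fun C hC => ih _ (hs.frz hC) (by have := rem_frz hC; omega)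
      have h4 := h1 s hs
      rw [Finset.sum_sub_distrib, Finset.sum_sub_distrib, Finset.sum_const, Finset.sum_const,
        nsmul_eq_mul, nsmul_eq_mul] at h4
      have h5 := mul_le_mul_of_nonneg_left h3 hα.le
      nlinarith

end

end Pool.Agent.H67PCF
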