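import Mathlib
import Pool.Agent.H67PCF.Defs

/-!
The graph: a chain of `L` gadgets, each made of `D` paths of length two, with one more edge attached at
each end.
-/

set_option autoImplicit false

namespace Pool.Agent.H67PCF

/-- The vertices of the chain. -/
abbrev W (L D : ℕ) : Type := Fin (L + 1) ⊕ ((Fin L × Fin D) ⊕ Bool)

variable {L D : ℕ}

def xx (j : Fin (L + 1)) : W L D := Sum.inl j
def zz (i : Fin L) (d : Fin D) : W L D := Sum.inr (Sum.inl (i, d))
def uu (b : Bool) : W L D := Sum.inr (Sum.inr b)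
def te (b : Bool) : Fin (L + 1) := if b = true then Fin.last L else 0
def sd (i : Fin L) (b : Bool) : Fin (L + 1) := if b = true then i.succ else i.castSucc
def ge (i : Fin L) (d : Fin D) (b : Bool) : Sym2 (W L D) := s(zz i d, xx (sd i b))
def pe (b : Bool) : Sym2 (W L D) := s(uu b, xx (te b))

/-- The chain. -/
def Gr (L D : ℕ) : SimpleGraph (W L D) :=
  SimpleGraph.fromEdgeSet ({e | ∃ i d b, e = ge i d b} ∪ {e | ∃ b, e = pe b})

theorem xx_inj {j j' : Fin (L + 1)} : (xx j : W L D) = xx j' ↔ j = j' := by simp [xx]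
theorem zz_inj {i i' : Fin L} {d d' : Fin D} : (zz i d : W L D) = zz i' d' ↔ i = i' ∧ d = d' := by
  simp [zz]
theorem uu_inj {b b' : Bool} : (uu b : W L D) = uu b' ↔ b = b' := by simp [uu]
theorem xx_ne_zz {j : Fin (L + 1)} {i : Fin L} {d : Fin D} : (xx j : W L D) ≠ zz i d := by
  simp [xx, zz]
theorem xx_ne_uu {j : Fin (L + 1)} {b : Bool} : (xx j : W L D) ≠ uu b := by simp [xx, uu]
theorem zz_ne_uu {i : Fin L} {d : Fin D} {b : Bool} : (zz i d : W L D) ≠ uu b := by simp [zz, uu]

theorem sd_inj {i : Fin L} {b b' : Bool} : sd i b = sd i b' ↔ b = b' := by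
  have h : i.succ ≠ i.castSucc := by
    intro h
    have := congrArg Fin.val h
    simp at this
  cases b <;> cases b' <;> simp [sd, h, h.symm]

theorem ge_inj {i i' : Fin L} {d d' : Fin D} {b b' : Bool} :
    ge i d b = ge i' d' b' ↔ i = i' ∧ d = d' ∧ b = b' := by
  unfold ge
  rw [Sym2.eq_iff]
  constructor
  · rintro (⟨h1, h2⟩ | ⟨h1, -⟩)
    · obtain ⟨rfl, rfl⟩ := zz_inj.1 h1
      exact ⟨rfl, rfl, sd_inj.1 (xx_inj.1 h2)⟩
    · exact absurd h1.symm xx_ne_zz
  · rintro ⟨rfl, rfl, rfl⟩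
    exact Or.inl ⟨rfl, rfl⟩

theorem ge_ne_pe {i : Fin L} {d : Fin D} {b b' : Bool} : ge i d b ≠ pe b' := by
  unfold ge pe
  rw [Ne, Sym2.eq_iff]
  rintro (⟨h1, -⟩ | ⟨h1, -⟩)
  · exact zz_ne_uu h1
  · exact xx_ne_zz h1.symm

theorem pe_inj {b b' : Bool} : (pe b : Sym2 (W L D)) = pe b' ↔ b = b' := by
  unfold pe
  rw [Sym2.eq_iff]
  constructor
  · rintro (⟨h1, -⟩ | ⟨h1, -⟩)
    · exact uu_inj.1 h1
    · exact absurd h1.symm xx_ne_uu
  · rintro rfl
    exact Or.inl ⟨rfl, rfl⟩

theorem mem_edge {e : Sym2 (W L D)} :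
    e ∈ (Gr L D).edgeSet ↔ (∃ i d b, e = ge i d b) ∨ ∃ b, e = pe b := by
  unfold Gr
  rw [SimpleGraph.edgeSet_fromEdgeSet]
  constructor
  · rintro ⟨h, -⟩
    exact h
  · intro h
    refine ⟨h, ?_⟩
    rcases h with ⟨i, d, b, rfl⟩ | ⟨b, rfl⟩
    · unfold ge
      intro h1
      exact xx_ne_zz (Sym2.mk_isDiag_iff.1 h1).symm
    · unfold pe
      intro h1
      exact xx_ne_uu (Sym2.mk_isDiag_iff.1 h1).symm

theorem ge_act {s : St (W L D)} {i : Fin L} {d : Fin D} {b : Bool} :
    ge i d b ∈ s.act (Gr L D) ↔ ge i d b ∉ s.op ∧ zz i d ∉ s.fr ∧ xx (sd i b) ∉ s.fr := by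
  rw [mem_act, mem_edge]
  constructor
  · rintro ⟨-, h2, h3⟩
    exact ⟨h2, h3 _ (Sym2.mem_mk_left _ _), h3 _ (Sym2.mem_mk_right _ _)⟩
  · rintro ⟨h2, h3, h4⟩
    refine ⟨Or.inl ⟨i, d, b, rfl⟩, h2, fun v hv => ?_⟩
    rcases Sym2.mem_iff.1 hv with rfl | rfl
    · exact h3
    · exact h4

theorem pe_act {s : St (W L D)} {b : Bool} :
    pe b ∈ s.act (Gr L D) ↔ pe b ∉ s.op ∧ uu b ∉ s.fr ∧ xx (te b) ∉ s.fr := by
  rw [mem_act, mem_edge]
  constructor
  · rintro ⟨-, h2, h3⟩
    exact ⟨h2, h3 _ (Sym2.mem_mk_left _ _), h3 _ (Sym2.mem_mk_right _ _)⟩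
  · rintro ⟨h2, h3, h4⟩
    refine ⟨Or.inr ⟨b, rfl⟩, h2, fun v hv => ?_⟩
    rcases Sym2.mem_iff.1 hv with rfl | rfl
    · exact h3
    · exact h4

open Classical in
/-- `x` if `p` holds, and `0` otherwise. -/
noncomputable def ind (p : Prop) (x : ℝ) : ℝ := if p then x else 0

theorem ind_pos {p : Prop} (h : p) (x : ℝ) : ind p x = x := if_pos h
theorem ind_neg {p : Prop} (h : ¬ p) (x : ℝ) : ind p x = 0 := if_neg h
theorem ind_zero (p : Prop) : ind p 0 = 0 := by simp [ind]

theorem sum_act (s : St (W L D)) (φ : Sym2 (W L D) → ℝ) :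
    ∑ e ∈ s.act (Gr L D), φ e =
      (∑ b, ind (pe b ∈ s.act (Gr L D)) (φ (pe b))) +
        ∑ i, ∑ d, ∑ b, ind (ge i d b ∈ s.act (Gr L D)) (φ (ge i d b)) := by
  classical
  have hinj : Function.Injective
      (Sum.elim (fun b => pe b) (fun t : Fin L × Fin D × Bool => ge t.1 t.2.1 t.2.2) :
        Bool ⊕ (Fin L × Fin D × Bool) → Sym2 (W L D)) := by
    rintro (b | ⟨i, d, b⟩) (b' | ⟨i', d', b'⟩) h
    · simp only [Sum.elim_inl] at h
      rw [pe_inj.1 h]
    · simp only [Sum.elim_inl, Sum.elim_inr] at h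
      exact absurd h.symm ge_ne_pe
    · simp only [Sum.elim_inl, Sum.elim_inr] at h
      exact absurd h ge_ne_pe
    · simp only [Sum.elim_inr] at h
      obtain ⟨rfl, rfl, rfl⟩ := ge_inj.1 h
      rfl
  have himg : s.act (Gr L D) = (Finset.univ.filter (fun t : Bool ⊕ (Fin L × Fin D × Bool) =>
      (Sum.elim (fun b => pe b) (fun t : Fin L × Fin D × Bool => ge t.1 t.2.1 t.2.2) t :
        Sym2 (W L D)) ∈ s.act (Gr L D))).image
      (Sum.elim (fun b => pe b) (fun t : Fin L × Fin D × Bool => ge t.1 t.2.1 t.2.2)) := by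
    ext e
    simp only [Finset.mem_image, Finset.mem_filter, Finset.mem_univ, true_and]
    constructor
    · intro he
      rcases mem_edge.1 (mem_act.1 he).1 with ⟨i, d, b, rfl⟩ | ⟨b, rfl⟩
      · exact ⟨Sum.inr (i, d, b), he, rfl⟩
      · exact ⟨Sum.inl b, he, rfl⟩
    · rintro ⟨t, ht, rfl⟩
      exact ht
  conv_lhs => rw [himg]
  rw [Finset.sum_image (fun a _ b _ h => hinj h), Finset.sum_filter, Fintype.sum_sum_type]
  simp only [Sum.elim_inl, Sum.elim_inr, Fintype.sum_prod_type]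
  congr 1
  · refine Finset.sum_congr rfl fun b _ => ?_
    by_cases h : (pe b : Sym2 (W L D)) ∈ s.act (Gr L D)
    · exact (if_pos h).trans (ind_pos h _).symm
    · exact (if_neg h).trans (ind_neg h _).symm
  · refine Finset.sum_congr rfl fun i _ => Finset.sum_congr rfl fun d _ =>
      Finset.sum_congr rfl fun b _ => ?_
    by_cases h : (ge i d b : Sym2 (W L D)) ∈ s.act (Gr L D)
    · exact (if_pos h).trans (ind_pos h _).symm
    · exact (if_neg h).trans (ind_neg h _).symm

/-! ### Reachability -/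

theorem con_of {s : St (W L D)} (hs : Inv (Gr L D) s) (P : W L D → Prop)
    (h1 : ∀ i d b, ge i d b ∈ s.op → (P (zz i d) ↔ P (xx (sd i b))))
    (h2 : ∀ b, pe b ∈ s.op → (P (uu b) ↔ P (xx (te b)))) :
    ∀ v w, s(v, w) ∈ s.op → P v → P w := by
  intro v w hvw hv
  rcases mem_edge.1 (hs.sub _ hvw) with ⟨i, d, b, h⟩ | ⟨b, h⟩
  · rw [h] at hvw
    have h3 := h1 i d b hvw
    unfold ge at h
    rcases Sym2.eq_iff.1 h with ⟨rfl, rfl⟩ | ⟨rfl, rfl⟩
    · exact h3.1 hv
    · exact h3.2 hv
  · rw [h] at hvw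
    have h3 := h2 b hvw
    unfold pe at h
    rcases Sym2.eq_iff.1 h with ⟨rfl, rfl⟩ | ⟨rfl, rfl⟩
    · exact h3.1 hv
    · exact h3.2 hv

/-- The gadget `i` joins its two ends. -/
def conn (s : St (W L D)) (i : Fin L) : Prop := ∃ d, ge i d false ∈ s.op ∧ ge i d true ∈ s.op

theorem sep {s : St (W L D)} (hs : Inv (Gr L D) s) {i : Fin L} (hi : ¬ conn s i)
    {j j' : Fin (L + 1)} (hj : j ≤ i.castSucc) (hj' : i.castSucc < j') :
    ¬ s.graph.Reachable (xx j) (xx j') := by
  intro hr
  have h := reach_iff (s := s) (fun v : W L D => match v with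
    | Sum.inl j => j ≤ i.castSucc
    | Sum.inr (Sum.inl (i', d)) => i' < i ∨ (i' = i ∧ ge i d false ∈ s.op)
    | Sum.inr (Sum.inr b) => b = false) (con_of hs _ ?_ ?_) hr hj
  · exact absurd hj' (not_lt.2 h)
  · intro i' d b hop
    show (i' < i ∨ (i' = i ∧ ge i d false ∈ s.op)) ↔ sd i' b ≤ i.castSucc
    rcases lt_trichotomy i' i with h | h | h
    · have h1 : sd i' b ≤ i.castSucc := by
        cases b
        · simp only [sd]
          rw [Fin.le_def]
          simp only [Bool.false_eq_true, if_false, Fin.val_castSucc]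
          exact (Fin.lt_def.1 h).le
        · simp only [sd]
          rw [Fin.le_def]
          simp only [if_true, Fin.val_succ, Fin.val_castSucc]
          exact Fin.lt_def.1 h
      exact ⟨fun _ => h1, fun _ => Or.inl h⟩
    · subst h
      cases b
      · simp [sd, hop]
      · have h1 : ge i' d false ∉ s.op := fun h2 => hi ⟨d, h2, hop⟩
        simp only [lt_irrefl, h1, and_false, or_self, false_iff, not_le, sd, if_true]
        rw [Fin.lt_def]
        simp
    · have h1 : ¬ sd i' b ≤ i.castSucc := by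
        rw [not_le, Fin.lt_def]
        have h2 := Fin.lt_def.1 h
        cases b
        · simpa [sd] using h2
        · simp only [sd, if_true, Fin.val_succ, Fin.val_castSucc]
          omega
      constructor
      · rintro (h2 | ⟨h2, -⟩)
        · exact absurd h2 (not_lt.2 h.le)
        · exact absurd h2 h.ne'
      · exact fun h2 => absurd h2 h1
  · intro b _
    show b = false ↔ te b ≤ i.castSucc
    cases b
    · simp [te]
    · simp only [Bool.true_eq_false, te, if_true, false_iff, not_le]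
      exact Fin.castSucc_lt_last i

theorem uu_alone {s : St (W L D)} (hs : Inv (Gr L D) s) {b : Bool} (hb : pe b ∉ s.op)
    {w : W L D} (hr : s.graph.Reachable (uu b) w) : w = uu b := by
  refine reach_iff (s := s) (fun v : W L D => v = uu b) (con_of hs _ ?_ ?_) hr rfl
  · intro i d b' _
    exact ⟨fun h => absurd h zz_ne_uu, fun h => absurd h xx_ne_uu⟩
  · intro b' hb'
    refine ⟨fun h => ?_, fun h => absurd h xx_ne_uu⟩
    rw [uu_inj] at h
    subst h
    exact absurd hb' hb

theorem zz_alone {s : St (W L D)} (hs : Inv (Gr L D) s) {i : Fin L} {d : Fin D}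
    (h1 : ge i d false ∉ s.op) (h2 : ge i d true ∉ s.op)
    {w : W L D} (hr : s.graph.Reachable (zz i d) w) : w = zz i d := by
  refine reach_iff (s := s) (fun v : W L D => v = zz i d) (con_of hs _ ?_ ?_) hr rfl
  · intro i' d' b' hop
    refine ⟨fun h => ?_, fun h => absurd h xx_ne_zz⟩
    obtain ⟨rfl, rfl⟩ := zz_inj.1 h
    cases b'
    · exact absurd hop h1
    · exact absurd hop h2
  · intro b' _
    exact ⟨fun h => absurd h.symm zz_ne_uu, fun h => absurd h xx_ne_zz⟩

theorem reach_ge {s : St (W L D)} {i : Fin L} {d : Fin D} {b : Bool} (h : ge i d b ∈ s.op) :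
    s.graph.Reachable (zz i d) (xx (sd i b)) :=
  ((adj_iff s _ _).2 ⟨h, xx_ne_zz.symm⟩).reachable

theorem reach_conn {s : St (W L D)} {i : Fin L} (h : conn s i) :
    s.graph.Reachable (xx i.castSucc) (xx i.succ) := by
  obtain ⟨d, h1, h2⟩ := h
  exact (reach_ge h1).symm.trans (reach_ge h2)

theorem reach_all {s : St (W L D)} (h : ∀ i, conn s i) (j : Fin (L + 1)) :
    s.graph.Reachable (xx 0) (xx j) := by
  induction j using Fin.induction with
  | zero => exact SimpleGraph.Reachable.refl _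
  | succ i ih => exact ih.trans (reach_conn (h i))

/-! ### The possible futures of the two extra edges -/

/-- The extra edge at the end `b` may still open. -/
def alive (s : St (W L D)) (b : Bool) : Prop := pe b ∉ s.op ∧ uu b ∉ s.fr ∧ xx (te b) ∉ s.fr

/-- One of the extra edges is open. -/
def anyo (s : St (W L D)) : Prop := ∃ b, pe b ∈ s.op

open Classical in
/-- The functions used for the comparison. -/
noncomputable def FF (h : ℝ) (M : St (W L D) → ℝ) (s : St (W L D)) : ℝ :=
  if anyo s then 0 else if alive s false ∧ alive s true then M s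
    else if alive s false ∨ alive s true then h else 1

/-- The generator. -/
noncomputable def gen (α : ℝ) (g : St (W L D) → ℝ) (s : St (W L D)) : ℝ :=
  ∑ e ∈ s.act (Gr L D), (g (s.opn e) - g s) + α * ∑ C ∈ s.wc, (g (s.frz C) - g s)

theorem anyo_opn_ge {s : St (W L D)} {i : Fin L} {d : Fin D} {b : Bool} :
    anyo (s.opn (ge i d b)) ↔ anyo s := by
  unfold anyo
  refine exists_congr fun b' => ?_
  rw [mem_opn]
  exact ⟨fun h => h.resolve_left (fun h => ge_ne_pe h.symm), Or.inr⟩

theorem anyo_frz {s : St (W L D)} {C : Finset (W L D)} : anyo (s.frz C) ↔ anyo s := Iff.rfl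

theorem alive_opn_ge {s : St (W L D)} {i : Fin L} {d : Fin D} {b b' : Bool} :
    alive (s.opn (ge i d b)) b' ↔ alive s b' := by
  unfold alive
  rw [mem_opn, opn_fr]
  have h : (pe b' : Sym2 (W L D)) ≠ ge i d b := fun h => ge_ne_pe h.symm
  tauto

theorem alive_frz {s : St (W L D)} {C : Finset (W L D)} {b : Bool} :
    alive (s.frz C) b ↔ alive s b ∧ uu b ∉ C ∧ xx (te b) ∉ C := by
  unfold alive
  rw [frz_op, mem_frz, mem_frz]
  tauto

theorem FF_any {h : ℝ} {M : St (W L D) → ℝ} {s : St (W L D)} (ho : anyo s) : FF h M s = 0 := by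
  simp [FF, ho]

theorem FF_none {h : ℝ} {M : St (W L D) → ℝ} {s : St (W L D)} (ho : ¬ anyo s)
    (ha : ∀ b, ¬ alive s b) : FF h M s = 1 := by
  simp [FF, ho, ha]

theorem FF_one {h : ℝ} {M : St (W L D) → ℝ} {s : St (W L D)} (ho : ¬ anyo s) {b : Bool}
    (ha : alive s b) (hb : ¬ alive s (!b)) : FF h M s = h := by
  cases b
  · simp only [Bool.not_false] at hb
    simp [FF, ho, ha, hb]
  · simp only [Bool.not_true] at hb
    simp [FF, ho, ha, hb]

theorem FF_both {h : ℝ} {M : St (W L D) → ℝ} {s : St (W L D)} (ho : ¬ anyo s)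
    (ha : ∀ b, alive s b) : FF h M s = M s := by
  simp [FF, ho, ha]

theorem FF_ge {h : ℝ} {M : St (W L D) → ℝ} {s : St (W L D)} {i : Fin L} {d : Fin D} {b : Bool}
    (hs : ¬ (¬ anyo s ∧ alive s false ∧ alive s true)) :
    FF h M (s.opn (ge i d b)) = FF h M s := by
  by_cases h1 : anyo s
  · rw [FF_any h1, FF_any (anyo_opn_ge.2 h1)]
  · have h1' : ¬ anyo (s.opn (ge i d b)) := fun h => h1 (anyo_opn_ge.1 h)
    by_cases h2 : alive s false
    · have h3 : ¬ alive s (!false) := fun h3 => hs ⟨h1, h2, h3⟩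
      rw [FF_one h1 h2 h3, FF_one h1' (alive_opn_ge.2 h2) (fun h => h3 (alive_opn_ge.1 h))]
    · by_cases h3 : alive s true
      · have h4 : ¬ alive s (!true) := h2
        rw [FF_one h1 h3 h4, FF_one h1' (alive_opn_ge.2 h3) (fun h => h4 (alive_opn_ge.1 h))]
      · have h4 : ∀ b, ¬ alive s b := by
          intro b
          cases b
          · exact h2
          · exact h3
        rw [FF_none h1 h4, FF_none h1' (fun b h => h4 b (alive_opn_ge.1 h))]

theorem gen_open {α h : ℝ} {M : St (W L D) → ℝ} {s : St (W L D)} (ho : anyo s) :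
    gen α (FF h M) s = 0 := by
  have h1 : ∀ s' : St (W L D), anyo s' → FF h M s' = 0 := by
    intro s' h'
    simp [FF, h']
  unfold gen
  rw [Finset.sum_eq_zero, Finset.sum_eq_zero, mul_zero, add_zero]
  · intro C _
    rw [h1 s ho, h1 _ (anyo_frz.2 ho), sub_zero]
  · intro e _
    have h2 : anyo (s.opn e) := by
      obtain ⟨b, hb⟩ := ho
      exact ⟨b, mem_opn.2 (Or.inr hb)⟩
    rw [h1 s ho, h1 _ h2, sub_zero]

theorem gen_none {α h : ℝ} {M : St (W L D) → ℝ} {s : St (W L D)} (ho : ¬ anyo s)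
    (ha : ∀ b, ¬ alive s b) : gen α (FF h M) s = 0 := by
  have h1 : ∀ s' : St (W L D), ¬ anyo s' → (∀ b, ¬ alive s' b) → FF h M s' = 1 := by
    intro s' h' h''
    simp [FF, h', h'']
  unfold gen
  rw [Finset.sum_eq_zero, Finset.sum_eq_zero, mul_zero, add_zero]
  · intro C _
    rw [h1 s ho ha, h1 _ (fun h => ho (anyo_frz.1 h)) (fun b hb => ha b (alive_frz.1 hb).1), sub_self]
  · intro e he
    rcases mem_edge.1 (mem_act.1 he).1 with ⟨i, d, b, rfl⟩ | ⟨b, rfl⟩
    · rw [FF_ge (fun h => ha false h.2.1), sub_self]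
    · exact absurd (pe_act.1 he) (ha b)

theorem tt_alone {s : St (W L D)} (hs : Inv (Gr L D) s) {b b' : Bool} (hb : pe b ∉ s.op) :
    s.cl (uu b) ≠ s.cl (xx (te b')) := by
  intro h
  rw [cl_eq_iff] at h
  exact xx_ne_uu (uu_alone hs hb h)

theorem uu_alone' {s : St (W L D)} (hs : Inv (Gr L D) s) (hb : ∀ b, pe b ∉ s.op) :
    s.cl (uu false) ≠ s.cl (uu true) := by
  intro h
  rw [cl_eq_iff] at h
  have := uu_inj.1 (uu_alone hs (hb false) h)
  exact Bool.noConfusion this

theorem mem_cl_uu {s : St (W L D)} (hs : Inv (Gr L D) s) {b : Bool} (hb : pe b ∉ s.op)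
    {w : W L D} : w ∈ s.cl (uu b) ↔ w = uu b := by
  rw [mem_cl]
  constructor
  · exact uu_alone hs hb
  · rintro rfl
    exact SimpleGraph.Reachable.refl _

theorem uu_notMem {s : St (W L D)} (hs : Inv (Gr L D) s) {b : Bool} (hb : pe b ∉ s.op)
    {j : Fin (L + 1)} : uu b ∉ s.cl (xx j) := by
  rw [mem_cl]
  intro h
  exact xx_ne_uu (uu_alone hs hb h.symm)

theorem gen_one {α h : ℝ} (hh : (1 + 2 * α) * h = 2 * α) {M : St (W L D) → ℝ}
    {s : St (W L D)} (hs : Inv (Gr L D) s) (ho : ¬ anyo s) (b : Bool) (ha : alive s b)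
    (hb : ¬ alive s (!b)) : gen α (FF h M) s = 0 := by
  classical
  have hop : ∀ b, pe b ∉ s.op := fun b hb => ho ⟨b, hb⟩
  have h1 : ∀ s' : St (W L D), ¬ anyo s' → alive s' b → ¬ alive s' (!b) → FF h M s' = h := by
    intro s' h' h'' h'''
    cases b
    · simp only [Bool.not_false] at h'''
      simp [FF, h', h'', h''']
    · simp only [Bool.not_true] at h'''
      simp [FF, h', h'', h''']
  have h2 : ∀ s' : St (W L D), ¬ anyo s' → (∀ b, ¬ alive s' b) → FF h M s' = 1 := by
    intro s' h' h''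
    simp [FF, h', h'']
  have hs0 : FF h M s = h := h1 s ho ha hb
  unfold gen
  rw [sum_act, hs0]
  have e1 : (∑ b', ind ((pe b' : Sym2 (W L D)) ∈ s.act (Gr L D))
      (FF h M (s.opn (pe b')) - h)) = -h := by
    have h3 : ∀ b', ind ((pe b' : Sym2 (W L D)) ∈ s.act (Gr L D))
        (FF h M (s.opn (pe b')) - h) = if b' = b then -h else 0 := by
      intro b'
      by_cases hbb : b' = b
      · subst hbb
        rw [ind_pos (pe_act.2 ha), if_pos rfl]
        have h4 : anyo (s.opn (pe b')) := ⟨b', mem_opn.2 (Or.inl rfl)⟩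
        simp [FF, h4]
      · have h4 : b' = !b := by cases b <;> cases b' <;> simp_all
        rw [if_neg hbb, h4, ind_neg (fun h5 => hb (pe_act.1 h5))]
    rw [Finset.sum_congr rfl (fun b' _ => h3 b'), Finset.sum_ite_eq' Finset.univ b]
    simp
  have e2 : (∑ i, ∑ d, ∑ b', ind ((ge i d b' : Sym2 (W L D)) ∈ s.act (Gr L D))
      (FF h M (s.opn (ge i d b')) - h)) = 0 := by
    refine Finset.sum_eq_zero fun i _ => Finset.sum_eq_zero fun d _ => Finset.sum_eq_zero
      fun b' _ => ?_
    have h3 : ¬ (¬ anyo s ∧ alive s false ∧ alive s true) := by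
      rintro ⟨-, h4, h5⟩
      cases b
      · exact hb h5
      · exact hb h4
    rw [FF_ge h3, hs0, sub_self, ind_zero]
  have hu : s.cl (uu b) ∈ s.wc := cl_mem_wc hs ha.2.1
  have ht : s.cl (xx (te b)) ∈ s.wc := cl_mem_wc hs ha.2.2
  have hne : s.cl (uu b) ≠ s.cl (xx (te b)) := tt_alone hs (hop b)
  have e3 : ∑ C ∈ s.wc, (FF h M (s.frz C) - h) = 2 * (1 - h) := by
    have h3 : ∀ C ∈ s.wc, FF h M (s.frz C) - h =
        (if C = s.cl (uu b) then 1 - h else 0) + (if C = s.cl (xx (te b)) then 1 - h else 0) := by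
      intro C hC
      by_cases hC1 : C = s.cl (uu b)
      · rw [if_pos hC1, if_neg (by rw [hC1]; exact hne), add_zero, h2 _ (fun h => ho (anyo_frz.1 h))]
        intro b'
        by_cases hbb : b' = b
        · subst hbb
          intro h4
          exact (alive_frz.1 h4).2.1 (by rw [hC1]; exact self_mem_cl _ _)
        · have h4 : b' = !b := by cases b <;> cases b' <;> simp_all
          rw [h4]
          exact fun h5 => hb (alive_frz.1 h5).1
      · by_cases hC2 : C = s.cl (xx (te b))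
        · rw [if_neg hC1, if_pos hC2, zero_add, h2 _ (fun h => ho (anyo_frz.1 h))]
          intro b'
          by_cases hbb : b' = b
          · subst hbb
            intro h4
            exact (alive_frz.1 h4).2.2 (by rw [hC2]; exact self_mem_cl _ _)
          · have h4 : b' = !b := by cases b <;> cases b' <;> simp_all
            rw [h4]
            exact fun h5 => hb (alive_frz.1 h5).1
        · rw [if_neg hC1, if_neg hC2, add_zero, h1 _ (fun h => ho (anyo_frz.1 h)), sub_self]
          · exact alive_frz.2 ⟨ha, fun h4 => hC1 (wc_eq hC h4), fun h4 => hC2 (wc_eq hC h4)⟩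
          · exact fun h5 => hb (alive_frz.1 h5).1
    rw [Finset.sum_congr rfl h3, Finset.sum_add_distrib, Finset.sum_ite_eq' s.wc (s.cl (uu b)),
      Finset.sum_ite_eq' s.wc (s.cl (xx (te b))), if_pos hu, if_pos ht]
    ring
  rw [e1, e2, e3]
  linarith

open Classical in
/-- The warm clusters which contain no end of the extra edges. -/
noncomputable def wcr (s : St (W L D)) : Finset (Finset (W L D)) :=
  s.wc.filter fun C => ∀ b, C ≠ s.cl (uu b) ∧ C ≠ s.cl (xx (te b))

theorem mem_wcr {s : St (W L D)} {C : Finset (W L D)} :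
    C ∈ wcr s ↔ C ∈ s.wc ∧ ∀ b, C ≠ s.cl (uu b) ∧ C ≠ s.cl (xx (te b)) := by
  simp [wcr]

theorem act_both {h : ℝ} {M : St (W L D) → ℝ} {s : St (W L D)}
    (ho : ¬ anyo s) (ha : ∀ b, alive s b) :
    ∑ e ∈ s.act (Gr L D), (FF h M (s.opn e) - FF h M s) =
      (∑ i, ∑ d, ∑ b, ind (ge i d b ∈ s.act (Gr L D)) (M (s.opn (ge i d b)) - M s)) - 2 * M s := by
  classical
  rw [sum_act, FF_both ho ha]
  have e1 : (∑ b', ind ((pe b' : Sym2 (W L D)) ∈ s.act (Gr L D))
      (FF h M (s.opn (pe b')) - M s)) = -2 * M s := by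
    have h3 : ∀ b', ind ((pe b' : Sym2 (W L D)) ∈ s.act (Gr L D))
        (FF h M (s.opn (pe b')) - M s) = -M s := by
      intro b'
      rw [ind_pos (pe_act.2 (ha b'))]
      have h4 : anyo (s.opn (pe b')) := ⟨b', mem_opn.2 (Or.inl rfl)⟩
      simp [FF, h4]
    rw [Finset.sum_congr rfl (fun b' _ => h3 b'), Finset.sum_const, Finset.card_univ,
      Fintype.card_bool]
    simp
  rw [e1]
  have e2 : ∀ i d b, FF h M (s.opn (ge i d b)) = M (s.opn (ge i d b)) := fun i d b =>
    FF_both (fun h => ho (anyo_opn_ge.1 h)) (fun b => alive_opn_ge.2 (ha b))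
  simp only [e2]
  ring

theorem wcr_both {h : ℝ} {M : St (W L D) → ℝ} {s : St (W L D)}
    (ho : ¬ anyo s) (ha : ∀ b, alive s b) :
    ∑ C ∈ wcr s, (FF h M (s.frz C) - FF h M s) = ∑ C ∈ wcr s, (M (s.frz C) - M s) := by
  refine Finset.sum_congr rfl fun C hC => ?_
  rw [mem_wcr] at hC
  rw [FF_both ho ha, FF_both (fun h => ho (anyo_frz.1 h))]
  intro b
  exact alive_frz.2 ⟨ha b, fun h4 => (hC.2 b).1 (wc_eq hC.1 h4),
    fun h4 => (hC.2 b).2 (wc_eq hC.1 h4)⟩

theorem gen_sep {α h : ℝ} {M : St (W L D) → ℝ} {s : St (W L D)} (hs : Inv (Gr L D) s)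
    (ho : ¬ anyo s) (ha : ∀ b, alive s b)
    (hr : ¬ s.graph.Reachable (xx (te false)) (xx (te true))) :
    gen α (FF h M) s =
      (∑ i, ∑ d, ∑ b, ind (ge i d b ∈ s.act (Gr L D)) (M (s.opn (ge i d b)) - M s)) - 2 * M s +
      α * (4 * (h - M s) + ∑ C ∈ wcr s, (M (s.frz C) - M s)) := by
  classical
  have hop : ∀ b, pe b ∉ s.op := fun b hb => ho ⟨b, hb⟩
  unfold gen
  rw [act_both ho ha]
  congr 2
  have hS : wcr s = s.wc \ {s.cl (uu false), s.cl (uu true), s.cl (xx (te false)),
      s.cl (xx (te true))} := by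
    ext C
    simp only [mem_wcr, Finset.mem_sdiff, Finset.mem_insert, Finset.mem_singleton, not_or,
      Bool.forall_bool]
    tauto
  have hsub : ({s.cl (uu false), s.cl (uu true), s.cl (xx (te false)),
      s.cl (xx (te true))} : Finset (Finset (W L D))) ⊆ s.wc := by
    intro C hC
    simp only [Finset.mem_insert, Finset.mem_singleton] at hC
    rcases hC with rfl | rfl | rfl | rfl
    · exact cl_mem_wc hs (ha false).2.1
    · exact cl_mem_wc hs (ha true).2.1
    · exact cl_mem_wc hs (ha false).2.2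
    · exact cl_mem_wc hs (ha true).2.2
  rw [← Finset.sum_sdiff hsub, ← hS, wcr_both ho ha, FF_both ho ha]
  have d1 := uu_alone' hs hop
  have d2 : ∀ b b', s.cl (uu b) ≠ s.cl (xx (te b')) := fun b b' => tt_alone hs (hop b)
  have d3 : s.cl (xx (te false)) ≠ s.cl (xx (te true)) := fun h => hr ((cl_eq_iff s _ _).1 h)
  rw [Finset.sum_insert, Finset.sum_insert, Finset.sum_insert, Finset.sum_singleton]
  · -- the four values
    have key : ∀ (C : Finset (W L D)) (b : Bool), ¬ alive (s.frz C) b → alive (s.frz C) (!b) →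
        FF h M (s.frz C) = h := by
      intro C b h1 h2
      have h3 : ¬ anyo (s.frz C) := fun h => ho (anyo_frz.1 h)
      cases b
      · simp only [Bool.not_false] at h2
        simp [FF, h1, h2, h3]
      · simp only [Bool.not_true] at h2
        simp [FF, h1, h2, h3]
    have v1 : ∀ b, FF h M (s.frz (s.cl (uu b))) = h := by
      intro b
      refine key _ b ?_ ?_
      · intro h4
        exact (alive_frz.1 h4).2.1 (self_mem_cl _ _)
      · refine alive_frz.2 ⟨ha _, ?_, ?_⟩
        · rw [mem_cl_uu hs (hop b), uu_inj]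
          cases b <;> simp
        · rw [mem_cl_uu hs (hop b)]
          exact xx_ne_uu
    have v2 : ∀ b, FF h M (s.frz (s.cl (xx (te b)))) = h := by
      intro b
      refine key _ b ?_ ?_
      · intro h4
        exact (alive_frz.1 h4).2.2 (self_mem_cl _ _)
      · refine alive_frz.2 ⟨ha _, uu_notMem hs (hop _), ?_⟩
        rw [mem_cl]
        cases b
        · exact hr
        · exact fun h => hr h.symm
    rw [v1, v1, v2, v2]
    ring
  · simpa using d3
  · simp only [Finset.mem_insert, Finset.mem_singleton, not_or]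
    exact ⟨d2 _ _, d2 _ _⟩
  · simp only [Finset.mem_insert, Finset.mem_singleton, not_or]
    exact ⟨d1, d2 _ _, d2 _ _⟩

theorem gen_conn {α h : ℝ} {M : St (W L D) → ℝ} {s : St (W L D)} (hs : Inv (Gr L D) s)
    (ho : ¬ anyo s) (ha : ∀ b, alive s b)
    (hr : s.graph.Reachable (xx (te false)) (xx (te true))) :
    gen α (FF h M) s =
      (∑ i, ∑ d, ∑ b, ind (ge i d b ∈ s.act (Gr L D)) (M (s.opn (ge i d b)) - M s)) - 2 * M s +
      α * (2 * (h - M s) + (1 - M s) + ∑ C ∈ wcr s, (M (s.frz C) - M s)) := by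
  classical
  have hop : ∀ b, pe b ∉ s.op := fun b hb => ho ⟨b, hb⟩
  have heq : s.cl (xx (te true)) = s.cl (xx (te false)) := (cl_eq_iff s _ _).2 hr.symm
  unfold gen
  rw [act_both ho ha]
  congr 2
  have hS : wcr s = s.wc \ {s.cl (uu false), s.cl (uu true), s.cl (xx (te false))} := by
    ext C
    simp only [mem_wcr, Finset.mem_sdiff, Finset.mem_insert, Finset.mem_singleton, not_or,
      Bool.forall_bool, heq]
    tauto
  have hsub : ({s.cl (uu false), s.cl (uu true), s.cl (xx (te false))} :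
      Finset (Finset (W L D))) ⊆ s.wc := by
    intro C hC
    simp only [Finset.mem_insert, Finset.mem_singleton] at hC
    rcases hC with rfl | rfl | rfl
    · exact cl_mem_wc hs (ha false).2.1
    · exact cl_mem_wc hs (ha true).2.1
    · exact cl_mem_wc hs (ha false).2.2
  rw [← Finset.sum_sdiff hsub, ← hS, wcr_both ho ha, FF_both ho ha]
  have d1 := uu_alone' hs hop
  have d2 : ∀ b b', s.cl (uu b) ≠ s.cl (xx (te b')) := fun b b' => tt_alone hs (hop b)
  rw [Finset.sum_insert, Finset.sum_insert, Finset.sum_singleton]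
  · have h3 : ∀ C, ¬ anyo (s.frz C) := fun C h => ho (anyo_frz.1 h)
    have v1 : ∀ b, FF h M (s.frz (s.cl (uu b))) = h := by
      intro b
      have h1 : ¬ alive (s.frz (s.cl (uu b))) b := fun h4 =>
        (alive_frz.1 h4).2.1 (self_mem_cl _ _)
      have h2 : alive (s.frz (s.cl (uu b))) (!b) := by
        refine alive_frz.2 ⟨ha _, ?_, ?_⟩
        · rw [mem_cl_uu hs (hop b), uu_inj]
          cases b <;> simp
        · rw [mem_cl_uu hs (hop b)]
          exact xx_ne_uu
      cases b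
      · simp only [Bool.not_false] at h2
        simp [FF, h1, h2, h3]
      · simp only [Bool.not_true] at h2
        simp [FF, h1, h2, h3]
    have v2 : FF h M (s.frz (s.cl (xx (te false)))) = 1 := by
      have h1 : ¬ alive (s.frz (s.cl (xx (te false)))) false := fun h4 =>
        (alive_frz.1 h4).2.2 (self_mem_cl _ _)
      have h2 : ¬ alive (s.frz (s.cl (xx (te false)))) true := fun h4 =>
        (alive_frz.1 h4).2.2 ((mem_cl _ _ _).2 hr)
      simp [FF, h1, h2, h3]
    rw [v1, v1, v2]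
    ring
  · simpa using d2 _ _
  · simp only [Finset.mem_insert, Finset.mem_singleton, not_or]
    exact ⟨d1, d2 _ _⟩

end Pool.Agent.H67PCF
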