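import Mathlib
import Pool.Agent.H67PCF.Chain

/-!
An upper bound for the probability that both extra edges remain closed.
-/

set_option autoImplicit false

namespace Pool.Agent.H67PCF

variable {L D : ℕ}

/-- The middle vertex is joined to exactly one end of its gadget. -/
def half (s : St (W L D)) (i : Fin L) (d : Fin D) : Prop :=
  ∃ b, ge i d b ∈ s.op ∧ ge i d (!b) ∉ s.op

open Classical in
/-- The number of middle vertices joined to exactly one end. -/
noncomputable def kk (s : St (W L D)) (i : Fin L) : ℕ :=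
  (Finset.univ.filter (half s i)).card

/-- All the ends of the gadgets are warm. -/
def wk (s : St (W L D)) : Prop := ∀ j, xx j ∉ s.fr

theorem mem_ge_opn {s : St (W L D)} {i i' : Fin L} {d d' : Fin D} {b b' : Bool} :
    ge i' d' b' ∈ (s.opn (ge i d b)).op ↔ (i' = i ∧ d' = d ∧ b' = b) ∨ ge i' d' b' ∈ s.op := by
  rw [mem_opn, ge_inj]

theorem half_opn_ne {s : St (W L D)} {i i' : Fin L} {d d' : Fin D} {b : Bool}
    (h : ¬ (i' = i ∧ d' = d)) : half (s.opn (ge i d b)) i' d' ↔ half s i' d' := by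
  unfold half
  simp only [mem_ge_opn]
  refine exists_congr fun b' => ?_
  tauto

theorem conn_opn {s : St (W L D)} {i i' : Fin L} {d : Fin D} {b : Bool} :
    conn (s.opn (ge i d b)) i' ↔ conn s i' ∨ (i' = i ∧ ge i d (!b) ∈ s.op) := by
  unfold conn
  simp only [mem_ge_opn]
  constructor
  · rintro ⟨d', h1, h2⟩
    rcases h1 with ⟨rfl, rfl, hb⟩ | h1
    · rcases h2 with ⟨-, -, hb'⟩ | h2
      · rw [← hb] at hb'
        exact absurd hb' (by simp)
      · rw [← hb]
        exact Or.inr ⟨rfl, h2⟩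
    · rcases h2 with ⟨rfl, rfl, hb'⟩ | h2
      · rw [← hb']
        exact Or.inr ⟨rfl, h1⟩
      · exact Or.inl ⟨d', h1, h2⟩
  · rintro (⟨d', h1, h2⟩ | ⟨rfl, h⟩)
    · exact ⟨d', Or.inr h1, Or.inr h2⟩
    · refine ⟨d, ?_, ?_⟩
      · cases b
        · exact Or.inl ⟨rfl, rfl, rfl⟩
        · exact Or.inr h
      · cases b
        · exact Or.inr h
        · exact Or.inl ⟨rfl, rfl, rfl⟩

theorem kk_opn_ne {s : St (W L D)} {i i' : Fin L} {d : Fin D} {b : Bool}
    (h : i' ≠ i) : kk (s.opn (ge i d b)) i' = kk s i' := by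
  classical
  unfold kk
  congr 1
  ext d'
  simp only [Finset.mem_filter, Finset.mem_univ, true_and]
  exact half_opn_ne (fun h' => h h'.1)

theorem kk_opn_free {s : St (W L D)} {i : Fin L} {d : Fin D} {b : Bool}
    (h : ∀ b, ge i d b ∉ s.op) : kk (s.opn (ge i d b)) i = kk s i + 1 := by
  classical
  unfold kk
  have h1 : Finset.univ.filter (half (s.opn (ge i d b)) i) =
      insert d (Finset.univ.filter (half s i)) := by
    ext d'
    simp only [Finset.mem_filter, Finset.mem_univ, true_and, Finset.mem_insert]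
    by_cases hd : d' = d
    · subst hd
      simp only [true_or, iff_true]
      refine ⟨b, mem_ge_opn.2 (Or.inl ⟨rfl, rfl, rfl⟩), ?_⟩
      rw [mem_ge_opn]
      rintro (⟨-, -, h2⟩ | h2)
      · cases b <;> simp at h2
      · exact h _ h2
    · rw [half_opn_ne (fun h' => hd h'.2)]
      simp [hd]
  rw [h1, Finset.card_insert_of_notMem]
  simp only [Finset.mem_filter, Finset.mem_univ, true_and]
  rintro ⟨b', h2, -⟩
  exact h _ h2

theorem wk_opn {s : St (W L D)} {e : Sym2 (W L D)} : wk (s.opn e) ↔ wk s := Iff.rfl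

theorem wk_frz {s : St (W L D)} {C : Finset (W L D)} :
    wk (s.frz C) ↔ wk s ∧ ∀ j, xx j ∉ C := by
  unfold wk
  simp only [mem_frz, not_or]
  exact forall_and

theorem conn_frz {s : St (W L D)} {C : Finset (W L D)} {i : Fin L} :
    conn (s.frz C) i ↔ conn s i := Iff.rfl

theorem kk_frz {s : St (W L D)} {C : Finset (W L D)} {i : Fin L} : kk (s.frz C) i = kk s i := rfl

theorem te_false : (te false : Fin (L + 1)) = 0 := rfl

theorem te_true : (te true : Fin (L + 1)) = Fin.last L := rfl

/-- When all gadgets are connected. -/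
theorem gen_all {α h h1 : ℝ} (hh1 : (2 + 3 * α) * h1 = α + 2 * α * h) {M : St (W L D) → ℝ}
    {s : St (W L D)} (hs : Inv (Gr L D) s) (ho : ¬ anyo s) (ha : ∀ b, alive s b)
    (hc : ∀ i, conn s i)
    (hM : ∀ s', (∀ i, conn s' i) → wk s' → M s' = h1) : gen α (FF h M) s = 0 := by
  have hr := reach_all hc
  have hw : wk s := fun j hj => (ha false).2.2 (hs.reach (hr j).symm hj)
  rw [gen_conn hs ho ha (by rw [te_false, te_true]; exact hr _), hM s hc hw]
  rw [Finset.sum_eq_zero (s := Finset.univ)]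
  · rw [Finset.sum_eq_zero]
    · linarith
    · intro C hC
      rw [mem_wcr] at hC
      have hwf : wk (s.frz C) := by
        rw [wk_frz]
        refine ⟨hw, fun j hj => (hC.2 false).2 ?_⟩
        rw [wc_eq hC.1 hj, cl_eq_iff, te_false]
        exact (hr j).symm
      rw [hM (s.frz C) hc hwf, sub_self]
  · intro i _
    refine Finset.sum_eq_zero fun d _ => Finset.sum_eq_zero fun b _ => ?_
    rw [hM _ (fun i' => conn_opn.2 (Or.inl (hc i'))) hw, sub_self, ind_zero]

/-! ### The comparison function -/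

open Classical in
/-- The factor of one gadget. -/
noncomputable def fac (ψ : ℕ → ℝ) (s : St (W L D)) (i : Fin L) : ℝ :=
  if conn s i then 1 else ψ (kk s i)

open Classical in
/-- The value when both extra edges may still open. -/
noncomputable def UU (h δ : ℝ) (ψ : ℕ → ℝ) (s : St (W L D)) : ℝ :=
  if wk s then h ^ 2 + δ * ∏ i, fac ψ s i else h ^ 2

theorem UU_wk {h δ : ℝ} {ψ : ℕ → ℝ} {s : St (W L D)} (hw : wk s) :
    UU h δ ψ s = h ^ 2 + δ * ∏ i, fac ψ s i := if_pos hw

theorem UU_not {h δ : ℝ} {ψ : ℕ → ℝ} {s : St (W L D)} (hw : ¬ wk s) :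
    UU h δ ψ s = h ^ 2 := if_neg hw

theorem fac_conn {ψ : ℕ → ℝ} {s : St (W L D)} {i : Fin L} (h : conn s i) : fac ψ s i = 1 :=
  if_pos h

theorem fac_not {ψ : ℕ → ℝ} {s : St (W L D)} {i : Fin L} (h : ¬ conn s i) :
    fac ψ s i = ψ (kk s i) := if_neg h

theorem fac_opn_ne {ψ : ℕ → ℝ} {s : St (W L D)} {i i' : Fin L} {d : Fin D} {b : Bool}
    (h : i' ≠ i) : fac ψ (s.opn (ge i d b)) i' = fac ψ s i' := by
  by_cases hc : conn s i'
  · rw [fac_conn hc, fac_conn (conn_opn.2 (Or.inl hc))]
  · have hc' : ¬ conn (s.opn (ge i d b)) i' := by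
      rw [conn_opn]
      rintro (h1 | ⟨h1, -⟩)
      · exact hc h1
      · exact h h1
    rw [fac_not hc, fac_not hc', kk_opn_ne h]

theorem fac_nonneg {ψ : ℕ → ℝ} (hψ : ∀ k, 0 ≤ ψ k) {s : St (W L D)} {i : Fin L} :
    0 ≤ fac ψ s i := by
  by_cases hc : conn s i
  · rw [fac_conn hc]
    exact zero_le_one
  · rw [fac_not hc]
    exact hψ _

/-- The contribution of one gadget which is not connected. -/
theorem gadget_upper {ψ : ℕ → ℝ} {α : ℝ} (hψ0 : ∀ k, 0 ≤ ψ k) (hψ1 : ∀ k, ψ k ≤ 1)
    (hψm : ∀ k, ψ k ≤ ψ (k + 1))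
    (hψ : ∀ k : ℕ, k * (1 - ψ k) + 2 * D * (ψ (k + 1) - ψ k) ≤ α * ψ k)
    {s : St (W L D)} {i : Fin L} (hc : ¬ conn s i) :
    ∑ d, ∑ b, ind (ge i d b ∈ s.act (Gr L D))
      (∏ i', fac ψ (s.opn (ge i d b)) i' - ∏ i', fac ψ s i') ≤ α * ∏ i', fac ψ s i' := by
  classical
  set Q : ℝ := ∏ i' ∈ Finset.univ.erase i, fac ψ s i' with hQ
  have hQ0 : 0 ≤ Q := Finset.prod_nonneg fun i' _ => fac_nonneg hψ0
  have e1 : ∏ i', fac ψ s i' = ψ (kk s i) * Q := by
    rw [← Finset.mul_prod_erase Finset.univ _ (Finset.mem_univ i), fac_not hc]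
  have e2 : ∀ d b, ∏ i', fac ψ (s.opn (ge i d b)) i' = fac ψ (s.opn (ge i d b)) i * Q := by
    intro d b
    rw [← Finset.mul_prod_erase Finset.univ _ (Finset.mem_univ i)]
    congr 1
    exact Finset.prod_congr rfl fun i' hi' => fac_opn_ne (Finset.ne_of_mem_erase hi')
  have key : ∀ d, ∑ b, ind (ge i d b ∈ s.act (Gr L D))
      (∏ i', fac ψ (s.opn (ge i d b)) i' - ∏ i', fac ψ s i') ≤
      (if half s i d then (1 - ψ (kk s i)) * Q else 0) +
        2 * (ψ (kk s i + 1) - ψ (kk s i)) * Q := by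
    intro d
    have hm := hψm (kk s i)
    have h1 := hψ1 (kk s i)
    have p1 : 0 ≤ (1 - ψ (kk s i)) * Q := mul_nonneg (by linarith) hQ0
    have p2 : 0 ≤ (ψ (kk s i + 1) - ψ (kk s i)) * Q := mul_nonneg (by linarith) hQ0
    by_cases hf : ∀ b, ge i d b ∉ s.op
    · have hb : ∀ b, ind (ge i d b ∈ s.act (Gr L D))
          (∏ i', fac ψ (s.opn (ge i d b)) i' - ∏ i', fac ψ s i') ≤
          (ψ (kk s i + 1) - ψ (kk s i)) * Q := by
        intro b
        by_cases hact : ge i d b ∈ s.act (Gr L D)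
        · rw [ind_pos hact, e2, e1]
          have hc' : ¬ conn (s.opn (ge i d b)) i := by
            rw [conn_opn]
            rintro (h2 | ⟨-, h2⟩)
            · exact hc h2
            · exact hf _ h2
          rw [fac_not hc', kk_opn_free hf]
          linarith
        · rw [ind_neg hact]
          exact p2
      have hsum := Finset.sum_le_sum (fun b (_ : b ∈ Finset.univ) => hb b)
      refine hsum.trans ?_
      rw [Finset.sum_const, Finset.card_univ, Fintype.card_bool]
      split_ifs <;> simp only [nsmul_eq_mul, Nat.cast_ofNat] <;> linarith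
    · push Not at hf
      obtain ⟨b₀, hb₀⟩ := hf
      have hb₁ : ge i d (!b₀) ∉ s.op := by
        intro hb₁
        apply hc
        cases b₀
        · exact ⟨d, hb₀, hb₁⟩
        · exact ⟨d, hb₁, hb₀⟩
      have hh : half s i d := ⟨b₀, hb₀, hb₁⟩
      rw [if_pos hh]
      have hb : ∀ b, ind (ge i d b ∈ s.act (Gr L D))
          (∏ i', fac ψ (s.opn (ge i d b)) i' - ∏ i', fac ψ s i') ≤
          if b = !b₀ then (1 - ψ (kk s i)) * Q else 0 := by
        intro b
        by_cases hbb : b = !b₀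
        · rw [if_pos hbb]
          by_cases hact : ge i d b ∈ s.act (Gr L D)
          · rw [ind_pos hact, e2, e1]
            have hc' : conn (s.opn (ge i d b)) i := by
              rw [conn_opn]
              refine Or.inr ⟨rfl, ?_⟩
              rw [hbb, Bool.not_not]
              exact hb₀
            rw [fac_conn hc']
            linarith
          · rw [ind_neg hact]
            exact p1
        · have hbb' : b = b₀ := by cases b <;> cases b₀ <;> simp_all
          rw [if_neg hbb, ind_neg]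
          intro hact
          rw [ge_act, hbb'] at hact
          exact hact.1 hb₀
      have hsum := Finset.sum_le_sum (fun b (_ : b ∈ Finset.univ) => hb b)
      refine hsum.trans ?_
      rw [Finset.sum_ite_eq' Finset.univ (!b₀), if_pos (Finset.mem_univ _)]
      linarith
  refine (Finset.sum_le_sum fun d (_ : d ∈ Finset.univ) => key d).trans ?_
  rw [Finset.sum_add_distrib, ← Finset.sum_filter, Finset.sum_const, Finset.sum_const,
    Finset.card_univ, Fintype.card_fin, nsmul_eq_mul, nsmul_eq_mul, e1]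
  have h2 := mul_le_mul_of_nonneg_right (hψ (kk s i)) hQ0
  have h3 : ((Finset.univ.filter (half s i)).card : ℝ) = kk s i := by
    unfold kk
    congr
  rw [h3]
  linarith

open Classical in
/-- The gadgets which are not connected. -/
noncomputable def unc (s : St (W L D)) : Finset (Fin L) := Finset.univ.filter fun i => ¬ conn s i

theorem mem_unc {s : St (W L D)} {i : Fin L} : i ∈ unc s ↔ ¬ conn s i := by simp [unc]

theorem not_reach_ends {s : St (W L D)} (hs : Inv (Gr L D) s) {i : Fin L} (hi : ¬ conn s i) :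
    ¬ s.graph.Reachable (xx (te false)) (xx (te true)) := by
  rw [te_false, te_true]
  exact sep hs hi (Fin.zero_le _) (Fin.castSucc_lt_last i)

/-- The loss by the freezing of the clusters between the ends. -/
theorem wcr_upper {h δ : ℝ} (hδ : 0 ≤ δ) {ψ : ℕ → ℝ} (hψ0 : ∀ k, 0 ≤ ψ k)
    {s : St (W L D)} (hs : Inv (Gr L D) s) (ho : ¬ anyo s) (hw : wk s) (hne : (unc s).Nonempty) :
    ∑ C ∈ wcr s, (UU h δ ψ (s.frz C) - UU h δ ψ s) ≤
      -(((unc s).card : ℝ) - 1) * (δ * ∏ i, fac ψ s i) := by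
  classical
  set P : ℝ := ∏ i, fac ψ s i with hP
  have hP0 : 0 ≤ P := Finset.prod_nonneg fun i' _ => fac_nonneg hψ0
  have hδP : 0 ≤ δ * P := mul_nonneg hδ hP0
  set m : Fin L := (unc s).max' hne with hm
  have hmu : m ∈ unc s := Finset.max'_mem _ _
  set I : Finset (Fin L) := (unc s).erase m with hI
  have hlt : ∀ i ∈ I, i < m := fun i hi =>
    lt_of_le_of_ne (Finset.le_max' _ _ (Finset.mem_of_mem_erase hi)) (Finset.ne_of_mem_erase hi)
  have hle : ∀ i i' : Fin L, i < i' → i.succ ≤ i'.castSucc := by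
    intro i i' hii
    rw [Fin.le_def, Fin.val_succ, Fin.val_castSucc]
    exact Fin.lt_def.1 hii
  have hinj : Set.InjOn (fun i : Fin L => s.cl (xx i.succ)) I := by
    have hsep : ∀ i ∈ I, ∀ i' ∈ I, i < i' → s.cl (xx i.succ) ≠ s.cl (xx i'.succ) := by
      intro i _ i' hi' hii h
      rw [cl_eq_iff] at h
      exact sep hs (mem_unc.1 (Finset.mem_of_mem_erase hi')) (hle i i' hii)
        (Fin.castSucc_lt_succ) h
    intro i hi i' hi' h
    rcases lt_trichotomy i i' with h1 | h1 | h1
    · exact absurd h (hsep i hi i' hi' h1)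
    · exact h1
    · exact absurd h.symm (hsep i' hi' i hi h1)
  have hsub : I.image (fun i : Fin L => s.cl (xx i.succ)) ⊆ wcr s := by
    intro C hC
    obtain ⟨i, hi, rfl⟩ := Finset.mem_image.1 hC
    rw [mem_wcr]
    refine ⟨cl_mem_wc hs (hw _), ?_⟩
    have hi' := mem_unc.1 (Finset.mem_of_mem_erase hi)
    intro b
    constructor
    · intro h
      have h1 : xx i.succ ∈ s.cl (uu b) := by
        rw [← h]
        exact self_mem_cl _ _
      rw [mem_cl_uu hs (fun h => ho ⟨b, h⟩)] at h1
      exact xx_ne_uu h1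
    · intro h
      rw [cl_eq_iff] at h
      cases b
      · rw [te_false] at h
        exact sep hs hi' (Fin.zero_le _) (Fin.castSucc_lt_succ) h.symm
      · rw [te_true] at h
        exact sep hs (mem_unc.1 hmu) (hle i m (hlt i hi)) (Fin.castSucc_lt_last m) h
  have hnn : ∀ C, 0 ≤ UU h δ ψ s - UU h δ ψ (s.frz C) := by
    intro C
    rw [UU_wk hw]
    by_cases h1 : wk (s.frz C)
    · rw [UU_wk h1]
      exact (sub_self _).ge
    · rw [UU_not h1]
      linarith
  have hval : ∀ C ∈ I.image (fun i : Fin L => s.cl (xx i.succ)),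
      UU h δ ψ s - UU h δ ψ (s.frz C) = δ * P := by
    intro C hC
    obtain ⟨i, hi, rfl⟩ := Finset.mem_image.1 hC
    have h1 : ¬ wk (s.frz (s.cl (xx i.succ))) := by
      rw [wk_frz]
      rintro ⟨-, h2⟩
      exact h2 i.succ (self_mem_cl _ _)
    rw [UU_wk hw, UU_not h1]
    ring
  have h1 := Finset.sum_le_sum_of_subset_of_nonneg hsub
    (f := fun C => UU h δ ψ s - UU h δ ψ (s.frz C)) (fun C _ _ => hnn C)
  rw [Finset.sum_congr rfl hval, Finset.sum_const, Finset.card_image_of_injOn hinj,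
    Finset.card_erase_of_mem hmu, nsmul_eq_mul] at h1
  have hcard : 1 ≤ (unc s).card := Finset.card_pos.2 hne
  rw [Nat.cast_sub hcard, Nat.cast_one] at h1
  have h2 : ∑ C ∈ wcr s, (UU h δ ψ (s.frz C) - UU h δ ψ s) =
      -∑ C ∈ wcr s, (UU h δ ψ s - UU h δ ψ (s.frz C)) := by
    rw [← Finset.sum_neg_distrib]
    exact Finset.sum_congr rfl fun C _ => by ring
  rw [h2]
  linarith

theorem gen_upper {α h h1 : ℝ} (hα : 0 < α) (hh : (1 + 2 * α) * h = 2 * α)
    (hh1 : (2 + 3 * α) * h1 = α + 2 * α * h) {δ : ℝ} (hδ : δ = h1 - h ^ 2) (hδ0 : 0 ≤ δ)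
    {ψ : ℕ → ℝ} (hψ0 : ∀ k, 0 ≤ ψ k) (hψ1 : ∀ k, ψ k ≤ 1)
    (hψm : ∀ k, ψ k ≤ ψ (k + 1))
    (hψ : ∀ k : ℕ, k * (1 - ψ k) + 2 * D * (ψ (k + 1) - ψ k) ≤ α * ψ k)
    {s : St (W L D)} (hs : Inv (Gr L D) s) (ho : ¬ anyo s) (ha : ∀ b, alive s b) :
    gen α (FF h (UU h δ ψ)) s ≤ 0 := by
  classical
  by_cases hc : ∀ i, conn s i
  · refine le_of_eq (gen_all hh1 hs ho ha hc fun s' hc' hw' => ?_)
    rw [UU_wk hw', Finset.prod_eq_one (fun i _ => fac_conn (hc' i)), hδ]
    ring
  · push Not at hc
    obtain ⟨i₀, hi₀⟩ := hc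
    rw [gen_sep hs ho ha (not_reach_ends hs hi₀)]
    by_cases hw : wk s
    · have hne : (unc s).Nonempty := ⟨i₀, mem_unc.2 hi₀⟩
      have h3 := wcr_upper (h := h) hδ0 hψ0 hs ho hw hne
      set P : ℝ := ∏ i, fac ψ s i with hP
      have hP0 : 0 ≤ P := Finset.prod_nonneg fun i' _ => fac_nonneg hψ0
      have h2 : ∑ i, ∑ d, ∑ b, ind (ge i d b ∈ s.act (Gr L D))
          (UU h δ ψ (s.opn (ge i d b)) - UU h δ ψ s) ≤ (unc s).card * (α * (δ * P)) := by
        have h4 : ∀ i, ∑ d, ∑ b, ind (ge i d b ∈ s.act (Gr L D))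
            (UU h δ ψ (s.opn (ge i d b)) - UU h δ ψ s) ≤
            if ¬ conn s i then α * (δ * P) else 0 := by
          intro i
          have h5 : ∀ d b, UU h δ ψ (s.opn (ge i d b)) - UU h δ ψ s =
              δ * (∏ i', fac ψ (s.opn (ge i d b)) i' - ∏ i', fac ψ s i') := by
            intro d b
            rw [UU_wk hw, UU_wk (wk_opn.2 hw)]
            ring
          by_cases hci : conn s i
          · rw [if_neg (not_not.2 hci)]
            apply le_of_eq
            refine Finset.sum_eq_zero fun d _ => Finset.sum_eq_zero fun b _ => ?_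
            rw [h5, sub_eq_zero.2, mul_zero, ind_zero]
            refine Finset.prod_congr rfl fun i' _ => ?_
            by_cases hii : i' = i
            · subst hii
              rw [fac_conn hci, fac_conn (conn_opn.2 (Or.inl hci))]
            · exact fac_opn_ne hii
          · rw [if_pos hci]
            have h6 := gadget_upper (α := α) hψ0 hψ1 hψm hψ hci
            have h7 := mul_le_mul_of_nonneg_left h6 hδ0
            refine le_trans (le_of_eq ?_) (h7.trans (le_of_eq ?_))
            · rw [Finset.mul_sum]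
              refine Finset.sum_congr rfl fun d _ => ?_
              rw [Finset.mul_sum]
              refine Finset.sum_congr rfl fun b _ => ?_
              rw [h5]
              by_cases hact : ge i d b ∈ s.act (Gr L D)
              · rw [ind_pos hact, ind_pos hact]
              · rw [ind_neg hact, ind_neg hact, mul_zero]
            · ring
        refine (Finset.sum_le_sum fun i (_ : i ∈ Finset.univ) => h4 i).trans (le_of_eq ?_)
        rw [← Finset.sum_filter, Finset.sum_const, nsmul_eq_mul]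
        rfl
      rw [UU_wk hw] at *
      have h5 := mul_le_mul_of_nonneg_left h3 hα.le
      have h6 : 4 * α * h - (2 + 4 * α) * h ^ 2 = 0 := by
        linear_combination (-2 * h) * hh
      have h7 : 0 ≤ δ * P := mul_nonneg hδ0 hP0
      have h8 : 0 ≤ α * (δ * P) := mul_nonneg hα.le h7
      nlinarith
    · have h2 : ∀ s' : St (W L D), s'.fr ⊇ s.fr → UU h δ ψ s' = h ^ 2 := by
        intro s' hs'
        refine UU_not fun h' => hw fun j hj => h' j (hs' hj)
      rw [h2 s (le_refl _)]
      rw [Finset.sum_eq_zero (s := Finset.univ)]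
      · rw [Finset.sum_eq_zero]
        · have h6 : 4 * α * h - (2 + 4 * α) * h ^ 2 = 0 := by
            linear_combination (-2 * h) * hh
          linarith
        · intro C _
          rw [h2, sub_self]
          intro v hv
          exact mem_frz.2 (Or.inl hv)
      · intro i _
        refine Finset.sum_eq_zero fun d _ => Finset.sum_eq_zero fun b _ => ?_
        rw [h2 (s.opn (ge i d b)) (le_refl _), sub_self, ind_zero]

end Pool.Agent.H67PCF
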