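import Mathlib
import Pool.Agent.H67PCF.Upper

/-!
A lower bound for the probability that both extra edges remain closed.
-/

set_option autoImplicit false

namespace Pool.Agent.H67PCF

variable {L D : ℕ}

open Classical in
/-- The number of frozen middle vertices. -/
noncomputable def ff (s : St (W L D)) (i : Fin L) : ℕ :=
  (Finset.univ.filter fun d => zz i d ∈ s.fr).card

/-- The middle vertex is warm and its two edges are closed. -/
def free (s : St (W L D)) (i : Fin L) (d : Fin D) : Prop :=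
  (∀ b, ge i d b ∉ s.op) ∧ zz i d ∉ s.fr

open Classical in
noncomputable def iso (s : St (W L D)) (i : Fin L) : ℕ := (Finset.univ.filter (free s i)).card

open Classical in
/-- The weight of one gadget. -/
noncomputable def ee (q : ℝ) (K : ℕ) (s : St (W L D)) (i : Fin L) : ℝ :=
  if conn s i then 0 else q ^ (K - kk s i) * 2 ^ (ff s i)

/-- The sum of the weights. -/
noncomputable def SS (q : ℝ) (K : ℕ) (s : St (W L D)) : ℝ := ∑ i, ee q K s i

open Classical in
noncomputable def ell (x : ℝ) : ℝ := if x = 0 then 0 else 1 + Real.log x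

noncomputable def YY (q : ℝ) (K : ℕ) (ρ ε : ℝ) (s : St (W L D)) : ℝ :=
  ρ * ell (SS q K s) + ε * SS q K s

open Classical in
noncomputable def WW (h1 q : ℝ) (K : ℕ) (ρ ε : ℝ) (s : St (W L D)) : ℝ :=
  if ∀ i, conn s i then h1 else if wk s then h1 * max 0 (1 - YY q K ρ ε s) else 0

theorem ee_conn {q : ℝ} {K : ℕ} {s : St (W L D)} {i : Fin L} (h : conn s i) : ee q K s i = 0 :=
  if_pos h

theorem ee_not {q : ℝ} {K : ℕ} {s : St (W L D)} {i : Fin L} (h : ¬ conn s i) :
    ee q K s i = q ^ (K - kk s i) * 2 ^ (ff s i) := if_neg h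

theorem ee_nonneg {q : ℝ} (hq : 1 ≤ q) {K : ℕ} {s : St (W L D)} {i : Fin L} :
    0 ≤ ee q K s i := by
  by_cases h : conn s i
  · rw [ee_conn h]
  · rw [ee_not h]
    positivity

theorem ee_one {q : ℝ} (hq : 1 ≤ q) {K : ℕ} {s : St (W L D)} {i : Fin L} (h : ¬ conn s i) :
    2 ^ (ff s i) ≤ ee q K s i := by
  rw [ee_not h]
  have h1 : 1 ≤ q ^ (K - kk s i) := one_le_pow₀ hq
  have h2 : (0 : ℝ) ≤ 2 ^ (ff s i) := by positivity
  nlinarith

theorem ee_le {q : ℝ} (hq : 1 ≤ q) {K : ℕ} {s : St (W L D)} (i : Fin L) :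
    ee q K s i ≤ SS q K s :=
  Finset.single_le_sum (f := fun i => ee q K s i) (fun _ _ => ee_nonneg hq) (Finset.mem_univ i)

theorem SS_zero {q : ℝ} {K : ℕ} {s : St (W L D)} (h : ∀ i, conn s i) : SS q K s = 0 :=
  Finset.sum_eq_zero fun i _ => ee_conn (h i)

theorem SS_one {q : ℝ} (hq : 1 ≤ q) {K : ℕ} {s : St (W L D)} {i : Fin L} (h : ¬ conn s i) :
    1 ≤ SS q K s :=
  (one_le_pow₀ (one_le_two)).trans ((ee_one hq h).trans (ee_le hq i))

theorem SS_or {q : ℝ} (hq : 1 ≤ q) {K : ℕ} (s : St (W L D)) : SS q K s = 0 ∨ 1 ≤ SS q K s := by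
  by_cases h : ∀ i, conn s i
  · exact Or.inl (SS_zero h)
  · push Not at h
    obtain ⟨i, hi⟩ := h
    exact Or.inr (SS_one hq hi)

theorem ell_nonneg {x : ℝ} (h : x = 0 ∨ 1 ≤ x) : 0 ≤ ell x := by
  unfold ell
  split_ifs with h0
  · exact le_rfl
  · have := Real.log_nonneg (h.resolve_left h0)
    linarith

theorem ell_diff {x y : ℝ} (hx : 1 ≤ x) (hy : y = 0 ∨ 1 ≤ y) : ell y - ell x ≤ (y - x) / x := by
  have hx0 : 0 < x := by linarith
  have h1 : ell x = 1 + Real.log x := if_neg hx0.ne'
  have h2 : (y - x) / x = y / x - 1 := by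
    field_simp
  rcases hy with rfl | hy
  · have h3 : ell 0 = 0 := if_pos rfl
    have h4 := Real.log_nonneg hx
    rw [h1, h2, h3, zero_div]
    linarith
  · have hy0 : 0 < y := by linarith
    have h3 : ell y = 1 + Real.log y := if_neg hy0.ne'
    have h4 := Real.log_le_sub_one_of_pos (div_pos hy0 hx0)
    rw [Real.log_div hy0.ne' hx0.ne'] at h4
    rw [h1, h2, h3]
    linarith

theorem YY_nonneg {q : ℝ} (hq : 1 ≤ q) {K : ℕ} {ρ ε : ℝ} (hρ : 0 ≤ ρ) (hε : 0 ≤ ε)
    (s : St (W L D)) : 0 ≤ YY q K ρ ε s := by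
  unfold YY
  have h1 := ell_nonneg (SS_or (K := K) hq s)
  have h2 : 0 ≤ SS q K s := Finset.sum_nonneg fun i _ => ee_nonneg hq
  positivity

theorem YY_diff {q : ℝ} (hq : 1 ≤ q) {K : ℕ} {ρ ε : ℝ} (hρ : 0 ≤ ρ)
    {s : St (W L D)} (s' : St (W L D)) (hs : 1 ≤ SS q K s) :
    YY q K ρ ε s' - YY q K ρ ε s ≤ (ρ / SS q K s + ε) * (SS q K s' - SS q K s) := by
  unfold YY
  have h1 := mul_le_mul_of_nonneg_left (ell_diff hs (SS_or (K := K) hq s')) hρ
  have h2 : (ρ / SS q K s + ε) * (SS q K s' - SS q K s) =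
      ρ * ((SS q K s' - SS q K s) / SS q K s) + ε * (SS q K s' - SS q K s) := by
    ring
  rw [h2]
  linarith

theorem WW_nonneg {h1 q : ℝ} (hh1 : 0 ≤ h1) {K : ℕ} {ρ ε : ℝ} (s : St (W L D)) :
    0 ≤ WW h1 q K ρ ε s := by
  unfold WW
  split_ifs
  · exact hh1
  · exact mul_nonneg hh1 (le_max_left _ _)
  · exact le_rfl

theorem WW_le {h1 q : ℝ} (hh1 : 0 ≤ h1) (hq : 1 ≤ q) {K : ℕ} {ρ ε : ℝ} (hρ : 0 ≤ ρ) (hε : 0 ≤ ε)
    (s : St (W L D)) : WW h1 q K ρ ε s ≤ h1 := by
  unfold WW
  have h2 := YY_nonneg (K := K) hq hρ hε s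
  split_ifs
  · exact le_rfl
  · refine mul_le_of_le_one_right hh1 (max_le zero_le_one (by linarith))
  · exact hh1

theorem WW_ge {h1 q : ℝ} (hh1 : 0 ≤ h1) (hq : 1 ≤ q) {K : ℕ} {ρ ε : ℝ} (hρ : 0 ≤ ρ)
    (hε : 0 ≤ ε) {s : St (W L D)} (hw : wk s) : h1 * (1 - YY q K ρ ε s) ≤ WW h1 q K ρ ε s := by
  unfold WW
  have h2 := YY_nonneg (K := K) hq hρ hε s
  split_ifs
  · exact mul_le_of_le_one_right hh1 (by linarith)
  · exact mul_le_mul_of_nonneg_left (le_max_right _ _) hh1

theorem ff_opn {s : St (W L D)} {e : Sym2 (W L D)} {i : Fin L} : ff (s.opn e) i = ff s i := rfl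

theorem ee_opn_ne {q : ℝ} {K : ℕ} {s : St (W L D)} {i i' : Fin L} {d : Fin D} {b : Bool}
    (h : i' ≠ i) : ee q K (s.opn (ge i d b)) i' = ee q K s i' := by
  by_cases hc : conn s i'
  · rw [ee_conn hc, ee_conn (conn_opn.2 (Or.inl hc))]
  · have hc' : ¬ conn (s.opn (ge i d b)) i' := by
      rw [conn_opn]
      rintro (h1 | ⟨h1, -⟩)
      · exact hc h1
      · exact h h1
    rw [ee_not hc, ee_not hc', kk_opn_ne h, ff_opn]

theorem SS_opn {q : ℝ} {K : ℕ} {s : St (W L D)} {i : Fin L} {d : Fin D} {b : Bool} :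
    SS q K (s.opn (ge i d b)) - SS q K s =
      ee q K (s.opn (ge i d b)) i - ee q K s i := by
  unfold SS
  rw [← Finset.add_sum_erase Finset.univ _ (Finset.mem_univ i),
    ← Finset.add_sum_erase Finset.univ (fun i => ee q K s i) (Finset.mem_univ i),
    Finset.sum_congr rfl (fun i' hi' => ee_opn_ne (q := q) (K := K) (s := s) (d := d) (b := b)
      (Finset.ne_of_mem_erase hi'))]
  ring

theorem card_cover {s : St (W L D)} {i : Fin L} (hc : ¬ conn s i) :
    D ≤ iso s i + ff s i + kk s i := by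
  classical
  have h : (Finset.univ : Finset (Fin D)) ⊆ (Finset.univ.filter (free s i) ∪
      Finset.univ.filter (fun d => zz i d ∈ s.fr)) ∪ Finset.univ.filter (half s i) := by
    intro d _
    simp only [Finset.mem_union, Finset.mem_filter, Finset.mem_univ, true_and]
    by_cases h1 : zz i d ∈ s.fr
    · exact Or.inl (Or.inr h1)
    · by_cases h2 : ∀ b, ge i d b ∉ s.op
      · exact Or.inl (Or.inl ⟨h2, h1⟩)
      · push Not at h2
        obtain ⟨b, hb⟩ := h2
        refine Or.inr ⟨b, hb, fun hb' => hc ?_⟩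
        cases b
        · exact ⟨d, hb, hb'⟩
        · exact ⟨d, hb', hb⟩
  have h3 := Finset.card_le_card h
  rw [Finset.card_univ, Fintype.card_fin] at h3
  refine h3.trans ((Finset.card_union_le _ _).trans ?_)
  refine Nat.add_le_add ((Finset.card_union_le _ _).trans (le_of_eq ?_)) (le_of_eq ?_)
  · unfold iso ff
    congr
  · unfold kk
    congr

theorem iso_le (s : St (W L D)) (i : Fin L) : iso s i ≤ D := by
  classical
  unfold iso
  exact (Finset.card_le_univ _).trans (le_of_eq (Fintype.card_fin D))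

/-- The contribution of the edges of one gadget which is not connected. -/
theorem gadget_lower {q : ℝ} {K : ℕ} {s : St (W L D)} (hs : Inv (Gr L D) s)
    (hw : wk s) {i : Fin L} (hc : ¬ conn s i) :
    ∑ d, ∑ b, ind (ge i d b ∈ s.act (Gr L D)) (SS q K (s.opn (ge i d b)) - SS q K s) =
      2 * iso s i * ((q ^ (K - (kk s i + 1)) - q ^ (K - kk s i)) * 2 ^ (ff s i)) -
        kk s i * ee q K s i := by
  classical
  set Δ : ℝ := (q ^ (K - (kk s i + 1)) - q ^ (K - kk s i)) * 2 ^ (ff s i) with hΔ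
  have key : ∀ d, ∑ b, ind (ge i d b ∈ s.act (Gr L D)) (SS q K (s.opn (ge i d b)) - SS q K s) =
      (if free s i d then 2 * Δ else 0) + (if half s i d then -ee q K s i else 0) := by
    intro d
    by_cases hf : ∀ b, ge i d b ∉ s.op
    · have hh : ¬ half s i d := by
        rintro ⟨b, hb, -⟩
        exact hf b hb
      rw [if_neg hh, add_zero]
      by_cases hz : zz i d ∈ s.fr
      · have hfr : ¬ free s i d := fun h => h.2 hz
        rw [if_neg hfr]
        refine Finset.sum_eq_zero fun b _ => ind_neg ?_ _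
        rw [ge_act]
        exact fun h => h.2.1 hz
      · have hfr : free s i d := ⟨hf, hz⟩
        rw [if_pos hfr]
        have hb : ∀ b, ind (ge i d b ∈ s.act (Gr L D))
            (SS q K (s.opn (ge i d b)) - SS q K s) = Δ := by
          intro b
          have hact : ge i d b ∈ s.act (Gr L D) := ge_act.2 ⟨hf b, hz, hw _⟩
          have hc' : ¬ conn (s.opn (ge i d b)) i := by
            rw [conn_opn]
            rintro (h2 | ⟨-, h2⟩)
            · exact hc h2
            · exact hf _ h2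
          rw [ind_pos hact, SS_opn, ee_not hc', ee_not hc, kk_opn_free hf, ff_opn, hΔ]
          ring
        rw [Finset.sum_congr rfl (fun b _ => hb b), Finset.sum_const, Finset.card_univ,
          Fintype.card_bool]
        simp
    · push Not at hf
      obtain ⟨b₀, hb₀⟩ := hf
      have hb₁ : ge i d (!b₀) ∉ s.op := by
        intro hb₁
        apply hc
        cases b₀
        · exact ⟨d, hb₀, hb₁⟩
        · exact ⟨d, hb₁, hb₀⟩
      have hh : half s i d := ⟨b₀, hb₀, hb₁⟩
      have hfr : ¬ free s i d := fun h => h.1 b₀ hb₀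
      rw [if_pos hh, if_neg hfr, zero_add]
      have hz : zz i d ∉ s.fr := fun hz => hw _ (hs.con _ _ hb₀ hz)
      have hb : ∀ b, ind (ge i d b ∈ s.act (Gr L D))
          (SS q K (s.opn (ge i d b)) - SS q K s) = if b = !b₀ then -ee q K s i else 0 := by
        intro b
        by_cases hbb : b = !b₀
        · rw [if_pos hbb]
          have hact : ge i d b ∈ s.act (Gr L D) := ge_act.2 ⟨by rw [hbb]; exact hb₁, hz, hw _⟩
          have hc' : conn (s.opn (ge i d b)) i := by
            rw [conn_opn]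
            refine Or.inr ⟨rfl, ?_⟩
            rw [hbb, Bool.not_not]
            exact hb₀
          rw [ind_pos hact, SS_opn, ee_conn hc', zero_sub]
        · have hbb' : b = b₀ := by cases b <;> cases b₀ <;> simp_all
          rw [if_neg hbb, ind_neg]
          intro hact
          rw [ge_act, hbb'] at hact
          exact hact.1 hb₀
      rw [Finset.sum_congr rfl (fun b _ => hb b), Finset.sum_ite_eq' Finset.univ (!b₀),
        if_pos (Finset.mem_univ _)]
  rw [Finset.sum_congr rfl (fun d _ => key d), Finset.sum_add_distrib, ← Finset.sum_filter,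
    ← Finset.sum_filter, Finset.sum_const, Finset.sum_const, nsmul_eq_mul, nsmul_eq_mul]
  have h3 : ((Finset.univ.filter (half s i)).card : ℝ) = kk s i := by
    unfold kk
    congr
  have h4 : ((Finset.univ.filter (free s i)).card : ℝ) = iso s i := by
    unfold iso
    congr
  rw [h3, h4]
  ring

/-- The total drift of the weight of one gadget. -/
theorem gadget_drift {q p : ℝ} (hq : 1 ≤ q) (hp : q * (1 - p) = 1) {K fm : ℕ} {α r : ℝ}
    (hα : 0 ≤ α) (hK : r + α * D ≤ K)
    (hD : r + α * D ≤ 2 * ((D : ℝ) - K - fm) * p) {s : St (W L D)} {i : Fin L}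
    (hc : ¬ conn s i) (hf : ff s i ≤ fm) :
    2 * iso s i * ((q ^ (K - (kk s i + 1)) - q ^ (K - kk s i)) * 2 ^ (ff s i)) -
        kk s i * ee q K s i + α * (iso s i * ee q K s i) ≤ -r * ee q K s i := by
  have he : 0 ≤ ee q K s i := ee_nonneg hq
  have h1 : (iso s i : ℝ) ≤ D := by exact_mod_cast iso_le s i
  have h2 : α * (iso s i * ee q K s i) ≤ α * (D * ee q K s i) :=
    mul_le_mul_of_nonneg_left (mul_le_mul_of_nonneg_right h1 he) hα
  have hcard : (D : ℝ) ≤ iso s i + ff s i + kk s i := by exact_mod_cast card_cover hc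
  by_cases hk : kk s i < K
  · have h3 : K - kk s i = (K - (kk s i + 1)) + 1 := by omega
    have h4 : ee q K s i = q * (q ^ (K - (kk s i + 1)) * 2 ^ (ff s i)) := by
      rw [ee_not hc, h3, pow_succ]
      ring
    have h5 : (q ^ (K - (kk s i + 1)) - q ^ (K - kk s i)) * 2 ^ (ff s i) = -p * ee q K s i := by
      rw [h4]
      rw [h3, pow_succ]
      linear_combination (-(q ^ (K - (kk s i + 1)) * 2 ^ (ff s i))) * hp
    rw [h5]
    have hkK : (kk s i : ℝ) ≤ K := by exact_mod_cast hk.le
    have hff : (ff s i : ℝ) ≤ fm := by exact_mod_cast hf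
    have hp0 : 0 ≤ p := by
      by_contra hneg
      push Not at hneg
      have : q * (1 - p) > 1 := by nlinarith
      linarith
    have h6 : (D : ℝ) - K - fm ≤ iso s i := by linarith
    have h7 : 2 * ((D : ℝ) - K - fm) * p ≤ 2 * iso s i * p := by nlinarith
    have h8 : (r + α * D) * ee q K s i ≤ (2 * iso s i * p) * ee q K s i :=
      mul_le_mul_of_nonneg_right (hD.trans h7) he
    have h9 : 0 ≤ (kk s i : ℝ) * ee q K s i := by positivity
    nlinarith
  · have h3 : K - kk s i = 0 := by omega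
    have h4 : K - (kk s i + 1) = 0 := by omega
    rw [h3, h4, sub_self, zero_mul, mul_zero, zero_sub]
    have hkK : (K : ℝ) ≤ kk s i := by exact_mod_cast (not_lt.1 hk)
    have h5 : (r + α * D) * ee q K s i ≤ kk s i * ee q K s i :=
      mul_le_mul_of_nonneg_right (hK.trans hkK) he
    nlinarith

theorem ee_frz {q : ℝ} {K : ℕ} {s : St (W L D)} {i : Fin L} {d : Fin D}
    (hz : zz i d ∉ s.fr) (i' : Fin L) :
    ee q K (s.frz {zz i d}) i' - ee q K s i' = if i' = i then ee q K s i else 0 := by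
  classical
  by_cases hc : conn s i'
  · rw [ee_conn hc, ee_conn (conn_frz.2 hc)]
    split_ifs with h
    · rw [← h, ee_conn hc, sub_zero]
    · rw [sub_zero]
  · have hc' : ¬ conn (s.frz {zz i d}) i' := hc
    rw [ee_not hc, ee_not hc', kk_frz]
    by_cases h : i' = i
    · subst h
      rw [if_pos rfl, ee_not hc]
      have h1 : ff (s.frz {zz i' d}) i' = ff s i' + 1 := by
        unfold ff
        have h2 : Finset.univ.filter (fun d' => zz i' d' ∈ (s.frz {zz i' d}).fr) =
            insert d (Finset.univ.filter (fun d' => zz i' d' ∈ s.fr)) := by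
          ext d'
          simp only [Finset.mem_filter, Finset.mem_univ, true_and, Finset.mem_insert, mem_frz,
            Finset.mem_singleton, zz_inj]
          tauto
        rw [h2, Finset.card_insert_of_notMem]
        simp only [Finset.mem_filter, Finset.mem_univ, true_and]
        exact hz
      rw [h1, pow_succ]
      ring
    · rw [if_neg h]
      have h1 : ff (s.frz {zz i d}) i' = ff s i' := by
        unfold ff
        congr 1
        ext d'
        simp only [Finset.mem_filter, Finset.mem_univ, true_and, mem_frz,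
          Finset.mem_singleton, zz_inj]
        tauto
      rw [h1, sub_self]

theorem SS_frz {q : ℝ} {K : ℕ} {s : St (W L D)} {i : Fin L} {d : Fin D}
    (hz : zz i d ∉ s.fr) : SS q K (s.frz {zz i d}) - SS q K s = ee q K s i := by
  classical
  unfold SS
  rw [← Finset.sum_sub_distrib, Finset.sum_congr rfl (fun i' _ => ee_frz hz i'),
    Finset.sum_ite_eq' Finset.univ i, if_pos (Finset.mem_univ _)]

/-- A warm cluster without ends of gadgets and of extra edges is a free middle vertex. -/
theorem wcr_free {s : St (W L D)} (hs : Inv (Gr L D) s) {C : Finset (W L D)} (hC : C ∈ wcr s)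
    (hx : ∀ j, xx j ∉ C) : ∃ i d, free s i d ∧ C = {zz i d} := by
  rw [mem_wcr] at hC
  obtain ⟨hC1, hC2⟩ := hC
  obtain ⟨v, hv, rfl⟩ := (mem_wc hs C).1 hC1
  rcases v with j | (⟨i, d⟩ | b)
  · exact absurd (self_mem_cl s (xx j)) (hx j)
  · have hf : ∀ b, ge i d b ∉ s.op := by
      intro b hb
      exact hx (sd i b) ((mem_cl s _ _).2 (reach_ge hb))
    refine ⟨i, d, ⟨hf, hv⟩, ?_⟩
    ext w
    rw [Finset.mem_singleton]
    constructor
    · intro hw
      exact zz_alone hs (hf false) (hf true) ((mem_cl s _ _).1 hw)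
    · rintro rfl
      exact self_mem_cl s _
  · exact absurd rfl (hC2 b).1

theorem wcr_lower {h1 q : ℝ} (hh1 : 0 ≤ h1) (hq : 1 ≤ q) {K : ℕ} {ρ ε : ℝ} (hρ : 0 ≤ ρ)
    (hε : 0 ≤ ε) {s : St (W L D)} (hs : Inv (Gr L D) s) (hw : wk s) (hS : 1 ≤ SS q K s)
    (hW : WW h1 q K ρ ε s = h1 * (1 - YY q K ρ ε s)) :
    -((L : ℝ) + 1) * h1 - h1 * (ρ / SS q K s + ε) * ∑ i, iso s i * ee q K s i ≤
      ∑ C ∈ wcr s, (WW h1 q K ρ ε (s.frz C) - WW h1 q K ρ ε s) := by
  classical
  set c : ℝ := ρ / SS q K s + ε with hc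
  have hc0 : 0 ≤ c := by positivity
  rw [← Finset.sum_filter_add_sum_filter_not (wcr s) (fun C => ∃ j, xx j ∈ C)]
  have e1 : -((L : ℝ) + 1) * h1 ≤ ∑ C ∈ (wcr s).filter (fun C => ∃ j, xx j ∈ C),
      (WW h1 q K ρ ε (s.frz C) - WW h1 q K ρ ε s) := by
    have hcard : ((wcr s).filter (fun C => ∃ j, xx j ∈ C)).card ≤ L + 1 := by
      have hsub : (wcr s).filter (fun C => ∃ j, xx j ∈ C) ⊆
          (Finset.univ : Finset (Fin (L + 1))).image (fun j => s.cl (xx j)) := by
        intro C hC
        rw [Finset.mem_filter] at hC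
        obtain ⟨hC1, j, hj⟩ := hC
        rw [Finset.mem_image]
        exact ⟨j, Finset.mem_univ _, (wc_eq (mem_wcr.1 hC1).1 hj).symm⟩
      refine (Finset.card_le_card hsub).trans (Finset.card_image_le.trans (le_of_eq ?_))
      rw [Finset.card_univ, Fintype.card_fin]
    have h2 : ∀ C ∈ (wcr s).filter (fun C => ∃ j, xx j ∈ C),
        -h1 ≤ WW h1 q K ρ ε (s.frz C) - WW h1 q K ρ ε s := by
      intro C _
      have h3 := WW_nonneg (q := q) (K := K) (ρ := ρ) (ε := ε) hh1 (s.frz C)
      have h4 := WW_le (K := K) hh1 hq hρ hε s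
      linarith
    have h3 := Finset.card_nsmul_le_sum _ _ _ h2
    rw [nsmul_eq_mul] at h3
    refine le_trans ?_ h3
    have h4 : (((wcr s).filter (fun C => ∃ j, xx j ∈ C)).card : ℝ) ≤ L + 1 := by
      exact_mod_cast hcard
    nlinarith
  have e2 : -(h1 * c * ∑ i, iso s i * ee q K s i) ≤
      ∑ C ∈ (wcr s).filter (fun C => ¬ ∃ j, xx j ∈ C),
        (WW h1 q K ρ ε (s.frz C) - WW h1 q K ρ ε s) := by
    set T := (wcr s).filter (fun C => ¬ ∃ j, xx j ∈ C) with hT
    have hT1 : ∀ C ∈ T, ∃ i d, free s i d ∧ C = {zz i d} := by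
      intro C hC
      rw [hT, Finset.mem_filter] at hC
      exact wcr_free hs hC.1 (fun j hj => hC.2 ⟨j, hj⟩)
    have h2 : ∀ C ∈ T, -(h1 * c * (SS q K (s.frz C) - SS q K s)) ≤
        WW h1 q K ρ ε (s.frz C) - WW h1 q K ρ ε s := by
      intro C hC
      have hwC : wk (s.frz C) := by
        rw [wk_frz]
        refine ⟨hw, fun j hj => ?_⟩
        rw [hT, Finset.mem_filter] at hC
        exact hC.2 ⟨j, hj⟩
      have h3 := WW_ge (K := K) hh1 hq hρ hε hwC
      have h4 := mul_le_mul_of_nonneg_left (YY_diff (ε := ε) hq hρ (s.frz C) hS) hh1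
      rw [hW]
      rw [← hc] at h4
      linarith
    refine le_trans ?_ (Finset.sum_le_sum h2)
    rw [Finset.sum_neg_distrib, neg_le_neg_iff, ← Finset.mul_sum]
    refine mul_le_mul_of_nonneg_left ?_ (mul_nonneg hh1 hc0)
    -- the sum over free middle vertices
    have hTsub : T ⊆ ((Finset.univ : Finset (Fin L × Fin D)).filter
        (fun t => free s t.1 t.2)).image (fun t => ({zz t.1 t.2} : Finset (W L D))) := by
      intro C hC
      obtain ⟨i, d, hf, rfl⟩ := hT1 C hC
      rw [Finset.mem_image]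
      exact ⟨(i, d), Finset.mem_filter.2 ⟨Finset.mem_univ _, hf⟩, rfl⟩
    have hinj : Function.Injective (fun t : Fin L × Fin D => ({zz t.1 t.2} : Finset (W L D))) := by
      rintro ⟨i, d⟩ ⟨i', d'⟩ h
      obtain ⟨rfl, rfl⟩ := zz_inj.1 (Finset.singleton_injective h)
      rfl
    refine (Finset.sum_le_sum_of_subset_of_nonneg hTsub ?_).trans (le_of_eq ?_)
    · intro C hC _
      obtain ⟨⟨i, d⟩, hf, rfl⟩ := Finset.mem_image.1 hC
      rw [Finset.mem_filter] at hf
      rw [SS_frz hf.2.2]
      exact ee_nonneg hq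
    · rw [Finset.sum_image (fun a _ b _ h => hinj h)]
      have h3 : ∀ t ∈ (Finset.univ : Finset (Fin L × Fin D)).filter (fun t => free s t.1 t.2),
          SS q K (s.frz {zz t.1 t.2}) - SS q K s = ee q K s t.1 := by
        intro t ht
        rw [Finset.mem_filter] at ht
        exact SS_frz ht.2.2
      rw [Finset.sum_congr rfl h3, Finset.sum_filter, Fintype.sum_prod_type]
      refine Finset.sum_congr rfl fun i _ => ?_
      have h4 : ∑ d, (if free s i d then ee q K s i else 0) = iso s i * ee q K s i := by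
        rw [← Finset.sum_filter, Finset.sum_const, nsmul_eq_mul]
        congr 2
      exact h4
  linarith

theorem gen_lower {α h h1 : ℝ} (hα : 0 < α) (hh0 : 0 ≤ h)
    (hh1 : (2 + 3 * α) * h1 = α + 2 * α * h) (h10 : 0 ≤ h1)
    {q p : ℝ} (hq : 1 ≤ q) (hp : q * (1 - p) = 1) {K fm : ℕ} {r ρ : ℝ} (hr : 0 ≤ r)
    (hK : r + α * D ≤ K) (hD : r + α * D ≤ 2 * ((D : ℝ) - K - fm) * p)
    (hρ : 0 ≤ ρ) (hρr : 2 + α * (L + 5) ≤ ρ * r)
    {s : St (W L D)} (hs : Inv (Gr L D) s) (ho : ¬ anyo s) (ha : ∀ b, alive s b) :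
    0 ≤ gen α (FF h (WW h1 q K ρ (1 / 2 ^ fm))) s := by
  classical
  have hε : (0 : ℝ) ≤ 1 / 2 ^ fm := by positivity
  set ε : ℝ := 1 / 2 ^ fm with hεdef
  by_cases hc : ∀ i, conn s i
  · refine ge_of_eq (gen_all hh1 hs ho ha hc fun s' hc' _ => ?_)
    unfold WW
    rw [if_pos hc']
  · have hc2 := hc
    push Not at hc2
    obtain ⟨i₀, hi₀⟩ := hc2
    rw [gen_sep hs ho ha (not_reach_ends hs hi₀)]
    have hnn : ∀ s' : St (W L D), 0 ≤ WW h1 q K ρ ε s' := fun s' => WW_nonneg h10 s'
    by_cases h0 : WW h1 q K ρ ε s = 0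
    · rw [h0]
      have e1 : 0 ≤ ∑ i, ∑ d, ∑ b, ind (ge i d b ∈ s.act (Gr L D))
          (WW h1 q K ρ ε (s.opn (ge i d b)) - 0) := by
        refine Finset.sum_nonneg fun i _ => Finset.sum_nonneg fun d _ =>
          Finset.sum_nonneg fun b _ => ?_
        by_cases hact : ge i d b ∈ s.act (Gr L D)
        · rw [ind_pos hact, sub_zero]
          exact hnn _
        · rw [ind_neg hact]
      have e2 : 0 ≤ ∑ C ∈ wcr s, (WW h1 q K ρ ε (s.frz C) - 0) := by
        refine Finset.sum_nonneg fun C _ => ?_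
        rw [sub_zero]
        exact hnn _
      have e3 := mul_nonneg hα.le (add_nonneg (mul_nonneg (by norm_num : (0 : ℝ) ≤ 4) hh0) e2)
      rw [sub_zero]
      linarith
    · have hw : wk s := by
        by_contra hw
        apply h0
        unfold WW
        rw [if_neg hc, if_neg hw]
      have hWY : WW h1 q K ρ ε s = h1 * max 0 (1 - YY q K ρ ε s) := by
        unfold WW
        rw [if_neg hc, if_pos hw]
      have hY : YY q K ρ ε s < 1 := by
        by_contra hY
        push Not at hY
        apply h0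
        rw [hWY, max_eq_left (by linarith), mul_zero]
      have hW : WW h1 q K ρ ε s = h1 * (1 - YY q K ρ ε s) := by
        rw [hWY, max_eq_right (by linarith)]
      have hS : 1 ≤ SS q K s := SS_one hq hi₀
      have hS0 : 0 < SS q K s := by linarith
      have hff : ∀ i, ¬ conn s i → ff s i ≤ fm := by
        intro i hi
        by_contra hlt
        push Not at hlt
        have h2 : (2 : ℝ) ^ (ff s i) ≤ SS q K s := (ee_one hq hi).trans (ee_le hq i)
        have h3 : (2 : ℝ) ^ fm ≤ 2 ^ (ff s i) := pow_le_pow_right₀ one_le_two hlt.le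
        have h4 : ε * SS q K s < 1 := by
          have h5 : YY q K ρ ε s = ρ * ell (SS q K s) + ε * SS q K s := rfl
          have h6 := mul_nonneg hρ (ell_nonneg (Or.inr hS))
          linarith
        rw [hεdef, div_mul_eq_mul_div, one_mul, div_lt_one (by positivity)] at h4
        linarith
      set c : ℝ := ρ / SS q K s + ε with hcdef
      have hc0 : 0 ≤ c := by positivity
      have e1 := wcr_lower h10 hq hρ hε hs hw hS hW
      rw [← hcdef] at e1
      have e2 : -(h1 * c * ∑ i, ∑ d, ∑ b, ind (ge i d b ∈ s.act (Gr L D))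
          (SS q K (s.opn (ge i d b)) - SS q K s)) ≤
          ∑ i, ∑ d, ∑ b, ind (ge i d b ∈ s.act (Gr L D))
            (WW h1 q K ρ ε (s.opn (ge i d b)) - WW h1 q K ρ ε s) := by
        rw [Finset.mul_sum, ← Finset.sum_neg_distrib]
        refine Finset.sum_le_sum fun i _ => ?_
        rw [Finset.mul_sum, ← Finset.sum_neg_distrib]
        refine Finset.sum_le_sum fun d _ => ?_
        rw [Finset.mul_sum, ← Finset.sum_neg_distrib]
        refine Finset.sum_le_sum fun b _ => ?_
        by_cases hact : ge i d b ∈ s.act (Gr L D)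
        · rw [ind_pos hact, ind_pos hact]
          have h3 := WW_ge (K := K) h10 hq hρ hε (wk_opn (e := ge i d b).2 hw)
          have h4 := mul_le_mul_of_nonneg_left
            (YY_diff (ε := ε) hq hρ (s.opn (ge i d b)) hS) h10
          rw [hW]
          rw [← hcdef] at h4
          linarith
        · rw [ind_neg hact, ind_neg hact, mul_zero, neg_zero]
      have e3 : (∑ i, ∑ d, ∑ b, ind (ge i d b ∈ s.act (Gr L D))
          (SS q K (s.opn (ge i d b)) - SS q K s)) + α * ∑ i, iso s i * ee q K s i ≤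
          -r * SS q K s := by
        rw [Finset.mul_sum, ← Finset.sum_add_distrib]
        unfold SS
        rw [Finset.mul_sum]
        refine Finset.sum_le_sum fun i _ => ?_
        by_cases hi : conn s i
        · rw [ee_conn hi, mul_zero, mul_zero, mul_zero, add_zero]
          apply le_of_eq
          refine Finset.sum_eq_zero fun d _ => Finset.sum_eq_zero fun b _ => ?_
          have h3 := SS_opn (q := q) (K := K) (s := s) (i := i) (d := d) (b := b)
          rw [ee_conn hi, ee_conn (conn_opn.2 (Or.inl hi)), sub_zero] at h3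
          unfold SS at h3
          rw [h3, ind_zero]
        · have h3 := gadget_lower (q := q) (K := K) hs hw hi
          have h4 := gadget_drift hq hp hα.le hK hD hi (hff i hi)
          unfold SS at h3
          rw [h3]
          exact h4
      have e4 : WW h1 q K ρ ε s ≤ h1 := WW_le h10 hq hρ hε s
      have e5 := mul_le_mul_of_nonneg_left e3 (mul_nonneg h10 hc0)
      have e6 := mul_le_mul_of_nonneg_left e1 hα.le
      have e7 : c * (r * SS q K s) = ρ * r + ε * (r * SS q K s) := by
        rw [hcdef]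
        field_simp
      have e8 : 0 ≤ ε * (r * SS q K s) := by positivity
      have e9 : h1 * (2 + α * (L + 5)) ≤ h1 * (c * (r * SS q K s)) := by
        refine mul_le_mul_of_nonneg_left ?_ h10
        rw [e7]
        linarith
      have e10 : 0 ≤ α * (4 * h) := by positivity
      have e11 : α * (4 * WW h1 q K ρ ε s) ≤ α * (4 * h1) :=
        mul_le_mul_of_nonneg_left (by linarith) hα.le
      nlinarith

end Pool.Agent.H67PCF
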